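import Pool.Agent.Helper75.LQ.Zs
import Pool.Agent.Helper85.LG.Conv

/-!
Bounds for the Laguerre coefficients from the size of zeta on the critical line.
-/

set_option autoImplicit false
set_option maxHeartbeats 1000000

open Complex Filter Topology Set
open Pool.Agent.H306R2 (Zt Zt_differentiableAt zeta_eq_pos)

namespace Pool.Agent.Helper85.LQ

open Pool.Agent.Helper75.LQ Pool.Agent.Helper85.LG Pool.Agent.Helper75.JE

lemma zeta_conj' (s : ℂ) : ‖riemannZeta ((starRingEnd ℂ) s)‖ = ‖riemannZeta s‖ := by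
  rw [riemannZeta_conj, Complex.norm_conj]

/-- the size of `(s - 1) ζ(s)` in the strip `1/2 ≤ Re s ≤ 2` -/
lemma zt_line {A : ℝ} (hA0 : 0 ≤ A) (hU : UpA A) {ε : ℝ} (hε : 0 < ε) :
    ∃ D : ℝ, 0 ≤ D ∧ ∀ s : ℂ, 1 / 2 ≤ s.re → s.re ≤ 2 → ‖Zt s‖ ≤ D * ‖s + 1‖ ^ (1 + A + ε) := by
  obtain ⟨C0, hC0⟩ := hU ε hε
  obtain ⟨B, hB1, hB⟩ := zeta_two_sided (σ := 2) (by norm_num)
  obtain ⟨C, hC1, hC⟩ : ∃ C : ℝ, 0 ≤ C ∧ ∀ t : ℝ, 1 ≤ t → ‖riemannZeta (1 / 2 + t * I)‖ ≤ C * t ^ (A + ε) :=
    ⟨|C0|, abs_nonneg _, fun t ht => (hC0 t ht).trans (mul_le_mul_of_nonneg_right (le_abs_self _) (by positivity))⟩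
  set k : ℝ := 1 + A + ε with hk
  have hk1 : 1 ≤ k := by linarith
  set D : ℝ := 2 * C + 27 + B with hD
  refine ⟨D, by positivity, ?_⟩
  set f : ℂ → ℂ := fun z => Zt z / (z + 1) ^ (k : ℂ) with hf
  have hnorm : ∀ z : ℂ, ‖f z‖ = ‖Zt z‖ / ‖z + 1‖ ^ k := fun z => by
    rw [hf]
    simp only
    rw [norm_div, Complex.norm_cpow_real]
  have hz1 : ∀ z : ℂ, 0 < z.re → 1 ≤ ‖z + 1‖ := by
    intro z hz
    have := Complex.re_le_norm (z + 1)
    simp only [add_re, one_re] at this
    linarith
  have hdiff : DifferentiableOn ℂ f {z : ℂ | 0 < z.re} := by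
    intro z hz
    have hz' : 0 < z.re := hz
    refine DifferentiableAt.differentiableWithinAt ?_
    refine (Zt_differentiableAt hz').div ?_ ?_
    · refine DifferentiableAt.cpow (by fun_prop) (by fun_prop) ?_
      left
      simp only [add_re, one_re]
      linarith
    · rw [Ne, Complex.cpow_eq_zero_iff]
      rintro ⟨h1, -⟩
      have := hz1 z hz'
      rw [h1, norm_zero] at this
      linarith
  have hfd : DiffContOnCl ℂ f (Complex.re ⁻¹' Ioo (1 / 2 : ℝ) 2) := by
    refine DifferentiableOn.diffContOnCl (hdiff.mono ?_)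
    intro z hz
    have h1 := closure_mono (show Complex.re ⁻¹' Ioo (1 / 2 : ℝ) 2 ⊆ {z : ℂ | 1 / 2 ≤ z.re} from fun w hw => hw.1.le) hz
    rw [(isClosed_le continuous_const Complex.continuous_re).closure_eq] at h1
    have h2 : 1 / 2 ≤ z.re := h1
    show 0 < z.re
    linarith
  have hleft : ∀ z : ℂ, z.re = 1 / 2 → ‖f z‖ ≤ D := by
    intro z hz
    have hp := hz1 z (by linarith)
    have hpk : 1 ≤ ‖z + 1‖ ^ k := Real.one_le_rpow hp (by linarith)
    rw [hnorm, div_le_iff₀ (by positivity)]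
    rcases le_or_gt 1 |z.im| with ht | ht
    · have hze : ‖riemannZeta z‖ ≤ C * |z.im| ^ (A + ε) := by
        rcases le_total 0 z.im with h0 | h0
        · rw [abs_of_nonneg h0] at ht ⊢
          have := hC z.im ht
          have e : (1 / 2 + z.im * I : ℂ) = z := by
            apply Complex.ext <;> simp [hz]
          rwa [e] at this
        · rw [abs_of_nonpos h0] at ht ⊢
          have := hC (-z.im) ht
          have e : (1 / 2 + (-z.im : ℝ) * I : ℂ) = (starRingEnd ℂ) z := by
            apply Complex.ext <;> simp [hz]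
          rwa [e, zeta_conj'] at this
      have hne : z ≠ 1 := by
        intro h
        rw [h, one_re] at hz
        norm_num at hz
      rw [← zeta_eq_pos (by linarith) hne, norm_mul]
      have h1 : ‖z - 1‖ ≤ 2 * |z.im| := by
        refine (Complex.norm_le_abs_re_add_abs_im _).trans ?_
        rw [sub_re, sub_im, hz, one_re, one_im, sub_zero]
        norm_num
        linarith
      have h2 : |z.im| ≤ ‖z + 1‖ := by
        have := Complex.abs_im_le_norm (z + 1)
        simpa using this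
      have h0 : 0 < |z.im| := by linarith
      calc ‖z - 1‖ * ‖riemannZeta z‖ ≤ (2 * |z.im|) * (C * |z.im| ^ (A + ε)) := by gcongr
        _ = 2 * C * |z.im| ^ k := by
            rw [hk, show 1 + A + ε = (A + ε) + 1 by ring, Real.rpow_add_one h0.ne']
            ring
        _ ≤ D * ‖z + 1‖ ^ k := by
            rw [hD]
            gcongr
            linarith
    · have h1 := Pool.Agent.H306R2.Zt_norm_le (s := z) (by linarith)
      have h2 : ‖z‖ ≤ 3 / 2 := by
        refine (Complex.norm_le_abs_re_add_abs_im _).trans ?_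
        rw [hz]
        norm_num
        linarith
      calc ‖Zt z‖ ≤ 3 * (‖z‖ + 1) ^ 2 := h1
        _ ≤ 3 * (3 / 2 + 1) ^ 2 := by gcongr
        _ ≤ 27 * 1 := by norm_num
        _ ≤ D * ‖z + 1‖ ^ k := by
            rw [hD]
            gcongr
            linarith
  have hright : ∀ z : ℂ, z.re = 2 → ‖f z‖ ≤ D := by
    intro z hz
    have hp := hz1 z (by linarith)
    have hpk : 1 ≤ ‖z + 1‖ ^ k := Real.one_le_rpow hp (by linarith)
    rw [hnorm, div_le_iff₀ (by positivity)]
    have hne : z ≠ 1 := by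
      intro h
      rw [h, one_re] at hz
      norm_num at hz
    rw [← zeta_eq_pos (by linarith) hne, norm_mul]
    have h1 : ‖z - 1‖ ≤ ‖z + 1‖ := by
      rw [← abs_of_nonneg (norm_nonneg (z - 1)), ← abs_of_nonneg (norm_nonneg (z + 1)), ← sq_le_sq,
        ← Complex.normSq_eq_norm_sq, ← Complex.normSq_eq_norm_sq, Complex.normSq_apply, Complex.normSq_apply]
      simp only [sub_re, sub_im, add_re, add_im, one_re, one_im, hz]
      nlinarith
    have h2 : ‖z + 1‖ ≤ ‖z + 1‖ ^ k := by
      calc ‖z + 1‖ = ‖z + 1‖ ^ (1 : ℝ) := (Real.rpow_one _).symm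
        _ ≤ _ := Real.rpow_le_rpow_of_exponent_le hp hk1
    calc ‖z - 1‖ * ‖riemannZeta z‖ ≤ ‖z + 1‖ ^ k * B := by
          gcongr
          · exact h1.trans h2
          · exact (hB z hz.ge).1
      _ ≤ D * ‖z + 1‖ ^ k := by
          rw [hD, mul_comm]
          gcongr
          linarith
  intro s hs1 hs2
  have hPL := PhragmenLindelof.vertical_strip (f := f) (a := 1 / 2) (b := 2) (C := D) (z := s)
    hfd ?_ hleft hright hs1 hs2
  · rw [hnorm, div_le_iff₀ (by
      have := hz1 s (by linarith)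
      positivity)] at hPL
    exact hPL
  · refine ⟨1, ?_, 12, ?_⟩
    · rw [lt_div_iff₀ (by norm_num)]
      have := Real.pi_gt_three
      linarith
    apply Asymptotics.IsBigO.of_bound 1
    filter_upwards [Filter.mem_inf_of_right (Filter.mem_principal_self _)] with z hz
    have hz2 : 1 / 2 < z.re ∧ z.re < 2 := hz
    have hp := hz1 z (by linarith)
    have hpk : 1 ≤ ‖z + 1‖ ^ k := Real.one_le_rpow hp (by linarith)
    have h1 := Pool.Agent.H306R2.Zt_norm_le (s := z) (by linarith)
    have h2 : ‖z‖ ≤ 2 + |z.im| := by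
      refine (Complex.norm_le_abs_re_add_abs_im _).trans ?_
      rw [abs_of_pos (by linarith)]
      linarith
    rw [hnorm, one_mul, Real.norm_of_nonneg (Real.exp_pos _).le, div_le_iff₀ (by positivity)]
    have h0 := abs_nonneg z.im
    have h3 : 3 * (‖z‖ + 1) ^ 2 ≤ 3 * (|z.im| + 3) ^ 2 := by
      have := norm_nonneg z
      have h8 : (‖z‖ + 1) ^ 2 ≤ (|z.im| + 3) ^ 2 := pow_le_pow_left₀ (by positivity) (by linarith) 2
      linarith
    have h4 : |z.im| + 3 ≤ Real.exp (|z.im| + 3) := by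
      have := Real.add_one_le_exp (|z.im| + 3)
      linarith
    have h5 : 3 * (|z.im| + 3) ^ 2 ≤ Real.exp (2 * (|z.im| + 3) + 2) := by
      have h6 : (3 : ℝ) ≤ Real.exp 2 := by
        have := Real.add_one_le_exp (2 : ℝ)
        linarith
      calc 3 * (|z.im| + 3) ^ 2 ≤ Real.exp 2 * (Real.exp (|z.im| + 3)) ^ 2 := by gcongr
        _ = _ := by
            rw [← Real.exp_nat_mul, ← Real.exp_add]
            congr 1
            push_cast
            ring
    have h7 : 2 * (|z.im| + 3) + 2 ≤ 12 * Real.exp (1 * |z.im|) := by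
      have := Real.add_one_le_exp (1 * |z.im|)
      linarith
    calc ‖Zt z‖ ≤ Real.exp (12 * Real.exp (1 * |z.im|)) :=
          (h1.trans h3).trans (h5.trans (Real.exp_le_exp.2 h7))
      _ ≤ Real.exp (12 * Real.exp (1 * |z.im|)) * ‖z + 1‖ ^ k := le_mul_of_one_le_right (Real.exp_pos _).le hpk

end Pool.Agent.Helper85.LQ
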