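import Pool.Agent.Helper85.LQ.Line

/-!
Zeros at a distance larger than `2A` from the critical line contradict the Laguerre inequalities.
-/

set_option autoImplicit false
set_option maxHeartbeats 1000000

open Complex Filter Topology Set
open Pool.Agent.H306R2 (Zt Zt_differentiableAt zeta_eq_pos)

namespace Pool.Agent.Helper85.LQ

open Pool.Agent.Helper75.LQ Pool.Agent.Helper85.LG Pool.Agent.Helper75.JE

/-- bounds for the Laguerre coefficients -/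
theorem lm_head {A : ℝ} (hA0 : 0 ≤ A) (hA1 : A ≤ 1 / 2) (hU : UpA A) {ε r : ℝ} (hε : 0 < ε) (hε1 : ε ≤ 1 / 2)
    (hr : 0 < r) (hr1 : r ≤ 1 / 4) : ∃ K : ℝ, 0 ≤ K ∧ ∀ (x : ℝ) (m : ℕ), 1 ≤ x →
    |Lm x m| ≤ K * x ^ (2 * (1 + A + ε) + r) * ‖Pg (1 / 2 + x * I)‖ ^ 2 / r ^ (2 * m) := by
  obtain ⟨D, hD0, hD⟩ := zt_line hA0 hU hε
  obtain ⟨C, hC0, hC⟩ := Pg_ratio
  set k : ℝ := 1 + A + ε with hk
  have hk0 : 0 ≤ k := by linarith
  have hk2 : k ≤ 2 := by linarith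
  refine ⟨10 ^ 6 * (D ^ 2 * 81 * Real.exp C), by positivity, fun x m hx => ?_⟩
  have hx0 : 0 < x := by linarith
  set P0 := ‖Pg (1 / 2 + x * I)‖ with hP0
  set P := ‖Pg (((1 / 2 + r : ℝ) : ℂ) + x * I)‖ with hP
  have hPP : P ^ 2 ≤ Real.exp C * x ^ r * P0 ^ 2 := by
    have h1 := (hC x (1 / 2) (1 / 2 + r) hx le_rfl (by linarith) (by linarith)).1
    rw [show (1 / 2 + r - 1 / 2 : ℝ) = r by ring] at h1
    rw [hP, hP0]
    have e : (((1 / 2 : ℝ) : ℂ) + x * I) = 1 / 2 + x * I := by push_cast; ring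
    rw [e] at h1
    exact h1
  have hb : ∀ u : ℝ, (2 + |x + u|) ^ k ≤ 9 * x ^ k * (1 + |u|) ^ 2 := by
    intro u
    have h1 : 2 + |x + u| ≤ 3 * x * (1 + |u|) := by
      have := abs_add_le x u
      rw [abs_of_pos hx0] at this
      have := abs_nonneg u
      nlinarith
    have hv1 : 1 ≤ 1 + |u| := by linarith [abs_nonneg u]
    calc (2 + |x + u|) ^ k ≤ (3 * x * (1 + |u|)) ^ k := Real.rpow_le_rpow (by positivity) h1 hk0
      _ = 3 ^ k * x ^ k * (1 + |u|) ^ k := by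
          rw [Real.mul_rpow (by positivity) (by positivity), Real.mul_rpow (by norm_num) hx0.le]
      _ ≤ 3 ^ (2 : ℝ) * x ^ k * (1 + |u|) ^ (2 : ℝ) := by
          have h3 : (3 : ℝ) ^ k ≤ 3 ^ (2 : ℝ) := Real.rpow_le_rpow_of_exponent_le (by norm_num) hk2
          have h4 : (1 + |u|) ^ k ≤ (1 + |u|) ^ (2 : ℝ) := Real.rpow_le_rpow_of_exponent_le hv1 hk2
          gcongr
      _ = 9 * x ^ k * (1 + |u|) ^ 2 := by norm_num
  have hzt : ∀ u : ℝ, ‖Zt (((1 / 2 + r : ℝ) : ℂ) + ((x + u : ℝ) : ℂ) * I)‖ ≤ D * (9 * x ^ k * (1 + |u|) ^ 2) := by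
    intro u
    refine (hD _ (by simp; linarith) (by simp; linarith)).trans ?_
    refine mul_le_mul_of_nonneg_left (le_trans ?_ (hb u)) hD0
    refine Real.rpow_le_rpow (norm_nonneg _) ?_ hk0
    refine (Complex.norm_le_abs_re_add_abs_im _).trans ?_
    have e1 : ((((1 / 2 + r : ℝ) : ℂ) + ((x + u : ℝ) : ℂ) * I) + 1).re = 3 / 2 + r := by
      simp
      ring
    have e2 : ((((1 / 2 + r : ℝ) : ℂ) + ((x + u : ℝ) : ℂ) * I) + 1).im = x + u := by simp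
    rw [e1, e2, abs_of_pos (by linarith)]
    linarith
  have hline : ∀ v : ℝ, ‖G x ((r : ℂ) + v * I)‖ ≤ (D ^ 2 * 81 * x ^ (2 * k) * P ^ 2) * (1 + |v|) ^ 8 := by
    intro v
    unfold G
    have e1 : (1 / 2 + ((r : ℂ) + v * I) + x * I) = ((1 / 2 + r : ℝ) : ℂ) + ((x + v : ℝ) : ℂ) * I := by
      push_cast; ring
    have e2 : (1 / 2 + ((r : ℂ) + v * I) - x * I) =
        (starRingEnd ℂ) (((1 / 2 + r : ℝ) : ℂ) + ((x + -v : ℝ) : ℂ) * I) := by
      apply Complex.ext <;> simp <;> ring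
    rw [norm_mul, e1, e2, xi_conj, Complex.norm_conj, xi_eq (by simp; linarith), xi_eq (by simp; linarith),
      norm_mul, norm_mul]
    have z1 := hzt v
    have z2 := hzt (-v)
    rw [abs_neg] at z2
    have hg := Pg_tail (s := ((1 / 2 + r : ℝ) : ℂ) + x * I) (by simp; linarith) v
    have e3 : (((1 / 2 + r : ℝ) : ℂ) + x * I + v * I) = ((1 / 2 + r : ℝ) : ℂ) + ((x + v : ℝ) : ℂ) * I := by
      push_cast; ring
    have e4 : (((1 / 2 + r : ℝ) : ℂ) + x * I - v * I) = ((1 / 2 + r : ℝ) : ℂ) + ((x + -v : ℝ) : ℂ) * I := by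
      push_cast; ring
    rw [e3, e4, ← hP] at hg
    have hxx : x ^ k * x ^ k = x ^ (2 * k) := by
      rw [← Real.rpow_add hx0]; congr 1; ring
    have h4v : (1 + |v|) ^ 4 ≤ (1 + |v|) ^ 8 :=
      pow_le_pow_right₀ (by linarith [abs_nonneg v]) (by norm_num)
    calc ‖Zt (((1 / 2 + r : ℝ) : ℂ) + ((x + v : ℝ) : ℂ) * I)‖ * ‖Pg (((1 / 2 + r : ℝ) : ℂ) + ((x + v : ℝ) : ℂ) * I)‖ *
          (‖Zt (((1 / 2 + r : ℝ) : ℂ) + ((x + -v : ℝ) : ℂ) * I)‖ *
            ‖Pg (((1 / 2 + r : ℝ) : ℂ) + ((x + -v : ℝ) : ℂ) * I)‖)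
        = (‖Zt (((1 / 2 + r : ℝ) : ℂ) + ((x + v : ℝ) : ℂ) * I)‖ * ‖Zt (((1 / 2 + r : ℝ) : ℂ) + ((x + -v : ℝ) : ℂ) * I)‖) *
          (‖Pg (((1 / 2 + r : ℝ) : ℂ) + ((x + v : ℝ) : ℂ) * I)‖ *
            ‖Pg (((1 / 2 + r : ℝ) : ℂ) + ((x + -v : ℝ) : ℂ) * I)‖) := by ring
      _ ≤ ((D * (9 * x ^ k * (1 + |v|) ^ 2)) * (D * (9 * x ^ k * (1 + |v|) ^ 2))) * P ^ 2 := by
          apply mul_le_mul _ hg (by positivity) (by positivity)
          exact mul_le_mul z1 z2 (norm_nonneg _) (by positivity)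
      _ = D ^ 2 * 81 * (x ^ k * x ^ k) * P ^ 2 * (1 + |v|) ^ 4 := by ring
      _ ≤ D ^ 2 * 81 * (x ^ k * x ^ k) * P ^ 2 * (1 + |v|) ^ 8 :=
          mul_le_mul_of_nonneg_left h4v (by positivity)
      _ = _ := by rw [hxx]
  have hcirc := fun (w : ℂ) (hw : ‖w‖ = r) => strip_bd x hr (by linarith) hline hw
  have htc := tc_le (G_diff x) hr hcirc (2 * m)
  refine (Complex.abs_re_le_norm _).trans (htc.trans ?_)
  refine div_le_div_of_nonneg_right ?_ (by positivity)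
  have hxr : x ^ (2 * k + r) = x ^ (2 * k) * x ^ r := Real.rpow_add hx0 _ _
  calc 10 ^ 6 * (D ^ 2 * 81 * x ^ (2 * k) * P ^ 2) ≤
        10 ^ 6 * (D ^ 2 * 81 * x ^ (2 * k) * (Real.exp C * x ^ r * P0 ^ 2)) := by gcongr
    _ = _ := by rw [hxr]; ring

/-- values to the right of the zeros -/
theorem vals (h3 : St_Z3) {θ : ℝ} (hθ : 1 / 2 ≤ θ) (hF : ∀ ε > 0, Few (θ + ε)) {y : ℝ} (hy : θ - 1 / 2 < y)
    (hy2 : y ≤ 3 / 2) {ε : ℝ} (hε : 0 < ε) :
    ∃ E X : ℝ, 1 ≤ E ∧ 1 ≤ X ∧ ∀ x : ℝ, X ≤ x →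
      ‖xi (1 / 2 + y + x * I)‖ ^ 2 ≤ E * x ^ (2 + y + 2 * ε) * ‖Pg (1 / 2 + x * I)‖ ^ 2 ∧
      x ^ (2 + y - 2 * ε) * ‖Pg (1 / 2 + x * I)‖ ^ 2 ≤ E * ‖xi (1 / 2 + y + x * I)‖ ^ 2 := by
  obtain ⟨C, hC0, hC⟩ := Pg_ratio
  obtain ⟨T, hT⟩ := h3 θ hθ hF (1 / 2 + y) (by linarith) ε hε
  have hexp : 1 ≤ Real.exp C := Real.one_le_exp hC0
  refine ⟨4 * Real.exp C, max T 3, by linarith, (by norm_num : (1 : ℝ) ≤ 3).trans (le_max_right _ _),
    fun x hx => ?_⟩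
  have hxT : T ≤ x := (le_max_left _ _).trans hx
  have hx3 : 3 ≤ x := (le_max_right _ _).trans hx
  have hx0 : 0 < x := by linarith
  set s : ℂ := 1 / 2 + y + x * I with hs
  have hre : s.re = 1 / 2 + y := by simp [hs]
  have him : s.im = x := by simp [hs]
  obtain ⟨z1, z2⟩ := hT s (by rw [hre]) (by rw [hre]; linarith) (by rw [him]; exact hxT)
  rw [him] at z1 z2
  have hne : s ≠ 1 := by
    intro h
    rw [h, one_im] at him
    linarith
  have hn1 : x ≤ ‖s - 1‖ := by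
    have := Complex.abs_im_le_norm (s - 1)
    rw [sub_im, him, one_im, sub_zero, abs_of_pos hx0] at this
    exact this
  have hn2 : ‖s - 1‖ ≤ 2 * x := by
    have := Complex.norm_le_abs_re_add_abs_im (s - 1)
    rw [sub_im, him, one_im, sub_zero, abs_of_pos hx0, sub_re, hre, one_re] at this
    have h1 : |1 / 2 + y - 1| ≤ 1 := by rw [abs_le]; constructor <;> linarith
    linarith
  have hp := hC x (1 / 2) (1 / 2 + y) (by linarith) le_rfl (by linarith) (by linarith)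
  rw [show (1 / 2 + y - 1 / 2 : ℝ) = y by ring] at hp
  have e : (((1 / 2 : ℝ) : ℂ) + x * I) = 1 / 2 + x * I := by push_cast; ring
  have e' : (((1 / 2 + y : ℝ) : ℂ) + x * I) = s := by rw [hs]; push_cast; ring
  rw [e, e'] at hp
  obtain ⟨p1, p2⟩ := hp
  rw [xi_eq (by rw [hre]; linarith), norm_mul, ← zeta_eq_pos (by rw [hre]; linarith) hne, norm_mul]
  set n := ‖s - 1‖
  set z := ‖riemannZeta s‖
  set p := ‖Pg s‖
  set P0 := ‖Pg (1 / 2 + x * I)‖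
  have hz0 : 0 ≤ z := norm_nonneg _
  have hp0 : 0 ≤ p := norm_nonneg _
  have hxe : ∀ a b : ℝ, x ^ a * x ^ b = x ^ (a + b) := fun a b => (Real.rpow_add hx0 a b).symm
  have hx2 : x ^ 2 = x ^ (2 : ℝ) := (Real.rpow_two x).symm
  constructor
  · calc (n * z * p) ^ 2 = n ^ 2 * z ^ 2 * p ^ 2 := by ring
      _ ≤ (2 * x) ^ 2 * (x ^ ε) ^ 2 * (Real.exp C * x ^ y * P0 ^ 2) := by gcongr
      _ = 4 * Real.exp C * (x ^ 2 * (x ^ ε * x ^ ε) * x ^ y) * P0 ^ 2 := by ring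
      _ = _ := by
          rw [hxe, hx2, hxe, hxe]
          congr 3
          ring
  · have h1 : x ^ (2 + y - 2 * ε) * P0 ^ 2 = x ^ 2 * (x ^ (-ε) * x ^ (-ε)) * (x ^ y * P0 ^ 2) := by
      rw [hxe, hx2, ← mul_assoc, hxe, hxe]
      congr 2
      ring
    rw [h1]
    calc x ^ 2 * (x ^ (-ε) * x ^ (-ε)) * (x ^ y * P0 ^ 2) ≤ n ^ 2 * (z * z) * (Real.exp C * p ^ 2) := by gcongr
      _ = Real.exp C * (n * z * p) ^ 2 := by ring
      _ ≤ 4 * Real.exp C * (n * z * p) ^ 2 := by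
          have : 0 ≤ Real.exp C * (n * z * p) ^ 2 := by positivity
          linarith

end Pool.Agent.Helper85.LQ

namespace Pool.Agent.Helper85.LQ

open Pool.Agent.Helper75.LQ Pool.Agent.Helper85.LG Pool.Agent.Helper75.JE

/-- the main step -/
theorem z2_core (h3 : St_Z3) {A B : ℝ} (hA0 : 0 ≤ A) (hU : UpA A) (hL : LagH)
    (hAB : 2 * A < B) (hB1 : B ≤ 1 / 2) (hF : ∀ ε > 0, Few (1 / 2 + B + ε)) :
    ∃ τ > 0, τ ≤ B ∧ Few (1 / 2 + B - τ) := by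
  obtain ⟨g, hg⟩ : ∃ g : ℝ, g = B - 2 * A := ⟨_, rfl⟩
  have hg0 : 0 < g := by linarith
  have hgB : g ≤ B := by linarith
  have hB0 : 0 < B := by linarith
  obtain ⟨ε, hε⟩ : ∃ ε : ℝ, ε = g / 64 := ⟨_, rfl⟩
  have hε0 : 0 < ε := by linarith
  obtain ⟨r, hr⟩ : ∃ r : ℝ, r = g / 16 := ⟨_, rfl⟩
  have hr0 : 0 < r := by linarith
  obtain ⟨τ, hτ⟩ : ∃ τ : ℝ, τ = g / 32 := ⟨_, rfl⟩
  have hτ0 : 0 < τ := by linarith
  have hBτ : 0 < B - τ := by linarith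
  obtain ⟨R, hR⟩ : ∃ R : ℝ, R = B + g / 8 := ⟨_, rfl⟩
  have hR0 : 0 < R := by linarith
  obtain ⟨R2, hR2⟩ : ∃ R2 : ℝ, R2 = R ^ 2 / (B - τ) := ⟨_, rfl⟩
  have hR2e : R2 * (B - τ) = R ^ 2 := by rw [hR2]; field_simp
  have hR2le : R2 ≤ B + 3 * g / 8 := by
    rw [hR2, div_le_iff₀ hBτ, hR, hτ]
    nlinarith
  have hR2ge : R ≤ R2 := by
    rw [hR2, le_div_iff₀ hBτ, sq]
    exact mul_le_mul_of_nonneg_left (by linarith) hR0.le
  have hR20 : 0 < R2 := by linarith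
  have hR21 : R2 ≤ 1 := by linarith
  obtain ⟨K, hK0, hK⟩ := lm_head hA0 (by linarith) hU hε0 (by linarith) hr0 (by linarith)
  obtain ⟨E1, X1, hE1, hX1, hV1⟩ := vals h3 (θ := 1 / 2 + B) (by linarith) hF (y := R) (by linarith) (by linarith) hε0
  obtain ⟨E2, X2, hE2, hX2, hV2⟩ := vals h3 (θ := 1 / 2 + B) (by linarith) hF (y := R2) (by linarith) (by linarith) hε0
  have hl0 : 0 ≤ Real.log (1 / r) := Real.log_nonneg (by rw [le_div_iff₀ hr0]; linarith)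
  obtain ⟨κ, hκ⟩ : ∃ κ : ℝ, κ = (g / 32) / (Real.log (1 / r) + 1) := ⟨_, rfl⟩
  have hκ0 : 0 < κ := by rw [hκ]; positivity
  have hκl : κ * Real.log (1 / r) ≤ g / 32 := by
    rw [hκ, div_mul_eq_mul_div, div_le_iff₀ (by linarith)]
    nlinarith
  have hκ1 : κ ≤ 1 := by
    rw [hκ, div_le_iff₀ (by linarith)]
    linarith
  obtain ⟨X3, hX3⟩ := hL κ hκ0
  obtain ⟨K1, hK1⟩ : ∃ K1 : ℝ, K1 = E1 * (E2 + 2 * K * (1 / ε + 1)) := ⟨_, rfl⟩
  have hK10 : 0 ≤ K1 := by rw [hK1]; positivity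
  have main : ∀ (x b : ℝ), max (max X1 X2) (max X3 ((K1 + 1) ^ (1 / ε))) ≤ x → B - τ < b → b < 1 / 2 →
      xi (1 / 2 + b + x * I) ≠ 0 := by
    intro x b hx hb1 hb2 hzero
    simp only [max_le_iff] at hx
    obtain ⟨⟨x1, x2⟩, x3, x4⟩ := hx
    have hx1 : 1 ≤ x := hX1.trans x1
    have hx0 : 0 < x := by linarith
    have hlx : 0 ≤ Real.log x := Real.log_nonneg hx1
    have hb0 : 0 < b := by linarith
    have hRR : R ^ 2 ≤ b * R2 := by
      rw [← hR2e, mul_comm]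
      exact mul_le_mul_of_nonneg_right hb1.le hR20.le
    obtain ⟨P0, hP0⟩ : ∃ P0 : ℝ, P0 = ‖Pg (1 / 2 + x * I)‖ ^ 2 := ⟨_, rfl⟩
    have hP0pos : 0 < P0 := by
      have := norm_pos_iff.2 (Pg_ne (s := 1 / 2 + x * I) (by simp))
      rw [hP0]
      positivity
    obtain ⟨μ, hμ⟩ : ∃ μ : ℝ, μ = x ^ (g / 2) := ⟨_, rfl⟩
    have hμ0 : 0 < μ := by rw [hμ]; exact Real.rpow_pos_of_pos hx0 _
    have hμ1 : 1 ≤ μ := by rw [hμ]; exact Real.one_le_rpow hx1 (by linarith)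
    -- the sum
    have S1 := (G_series x b).mul_left μ
    have S2 := (G_series x R2).mul_left μ⁻¹
    have S3 := (G_series x R).mul_left 2
    have S := (S1.add S2).sub S3
    rw [hzero, norm_zero] at S
    obtain ⟨w, hw⟩ : ∃ w : ℕ → ℝ, w = fun m => μ * b ^ (2 * m) + μ⁻¹ * R2 ^ (2 * m) - 2 * R ^ (2 * m) := ⟨_, rfl⟩
    have hw0 : ∀ m, 0 ≤ w m := by
      intro m
      have h1 : R ^ (2 * m) ≤ b ^ m * R2 ^ m := by
        rw [pow_mul, ← mul_pow]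
        exact pow_le_pow_left₀ (sq_nonneg _) hRR m
      have h2 : 2 * (b ^ m * R2 ^ m) ≤ μ * b ^ (2 * m) + μ⁻¹ * R2 ^ (2 * m) := by
        have e1 : b ^ (2 * m) = b ^ m * b ^ m := by rw [← pow_add]; congr 1; ring
        have e2 : R2 ^ (2 * m) = R2 ^ m * R2 ^ m := by rw [← pow_add]; congr 1; ring
        rw [e1, e2]
        have h3 : 0 ≤ μ⁻¹ * (μ * b ^ m - R2 ^ m) ^ 2 := by positivity
        have h4 : μ⁻¹ * (μ * b ^ m - R2 ^ m) ^ 2 =
            μ * (b ^ m * b ^ m) + μ⁻¹ * (R2 ^ m * R2 ^ m) - 2 * (b ^ m * R2 ^ m) := by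
          field_simp
          ring
        linarith
      simp only [hw]
      linarith
    have hS : HasSum (fun m => Lm x m * w m) (μ * 0 ^ 2 + μ⁻¹ * ‖xi (1 / 2 + R2 + x * I)‖ ^ 2 -
        2 * ‖xi (1 / 2 + R + x * I)‖ ^ 2) := by
      refine S.congr_fun ?_
      intro m
      simp only [hw]
      ring
    set M : ℕ := ⌈κ * Real.log x⌉₊ with hM
    have hlow := sum_le_hasSum (Finset.range M) (fun m hm => by
      rw [Finset.mem_range, not_lt] at hm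
      have h1 : κ * Real.log x ≤ m := (Nat.le_ceil _).trans (by exact_mod_cast hm)
      exact mul_nonneg (hX3 x x3 m h1) (hw0 m)) hS
    -- the head
    obtain ⟨Q, hQ⟩ : ∃ Q : ℝ, Q = 2 * K * x ^ (2 * (1 + A + ε) + r + g / 2 + g / 16) * P0 := ⟨_, rfl⟩
    have hQ0 : 0 ≤ Q := by rw [hQ]; positivity
    have hhead : ∀ m ∈ Finset.range M, -Q ≤ Lm x m * w m := by
      intro m hm
      rw [Finset.mem_range, hM, Nat.lt_ceil] at hm
      have h1 := hK x m hx1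
      rw [← hP0] at h1
      have hrp : 0 < r ^ (2 * m) := by positivity
      have hwle : w m ≤ 2 * μ := by
        simp only [hw]
        have h5 : 0 ≤ 2 * R ^ (2 * m) := by positivity
        have h6 : b ^ (2 * m) ≤ 1 := pow_le_one₀ hb0.le (by linarith)
        have h7 : R2 ^ (2 * m) ≤ 1 := pow_le_one₀ hR20.le hR21
        have h8 : μ⁻¹ ≤ 1 := inv_le_one_of_one_le₀ hμ1
        have h9 : μ * b ^ (2 * m) ≤ μ * 1 := by gcongr
        have h10 : μ⁻¹ * R2 ^ (2 * m) ≤ 1 * 1 := by gcongr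
        linarith
      have hrm : 1 / r ^ (2 * m) ≤ x ^ (g / 16) := by
        have e1 : 1 / r ^ (2 * m) = (1 / r) ^ (2 * m) := by rw [one_div_pow]
        rw [e1, ← Real.rpow_natCast, Real.rpow_def_of_pos (by positivity), Real.rpow_def_of_pos hx0]
        apply Real.exp_le_exp.2
        push_cast
        calc Real.log (1 / r) * (2 * m) ≤ Real.log (1 / r) * (2 * (κ * Real.log x)) := by gcongr
          _ = 2 * (κ * Real.log (1 / r)) * Real.log x := by ring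
          _ ≤ 2 * (g / 32) * Real.log x := by gcongr
          _ = _ := by ring
      have h2 : |Lm x m * w m| ≤ Q := by
        rw [abs_mul, abs_of_nonneg (hw0 m)]
        calc |Lm x m| * w m ≤ (K * x ^ (2 * (1 + A + ε) + r) * P0 / r ^ (2 * m)) * (2 * μ) :=
              mul_le_mul h1 hwle (hw0 m) (by positivity)
          _ = 2 * K * (x ^ (2 * (1 + A + ε) + r) * μ) * P0 * (1 / r ^ (2 * m)) := by ring
          _ ≤ 2 * K * (x ^ (2 * (1 + A + ε) + r) * μ) * P0 * x ^ (g / 16) := by gcongr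
          _ = 2 * K * (x ^ (2 * (1 + A + ε) + r) * μ * x ^ (g / 16)) * P0 := by ring
          _ = Q := by rw [hμ, ← Real.rpow_add hx0, ← Real.rpow_add hx0, hQ]
      exact (abs_le.1 h2).1
    have hsumle := Finset.sum_le_sum hhead
    rw [Finset.sum_const, Finset.card_range, nsmul_eq_mul] at hsumle
    -- number of terms
    have hMle : (M : ℝ) ≤ (1 / ε + 1) * x ^ ε := by
      have h1 : (M : ℝ) < κ * Real.log x + 1 := Nat.ceil_lt_add_one (by positivity)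
      have h2 := Real.log_le_rpow_div hx0.le hε0
      have h3 : 1 ≤ x ^ ε := Real.one_le_rpow hx1 hε0.le
      have h4 : κ * Real.log x ≤ Real.log x := by nlinarith
      have h5 : x ^ ε / ε = 1 / ε * x ^ ε := by ring
      rw [h5] at h2
      linarith
    obtain ⟨v1, v2⟩ := hV1 x x1
    obtain ⟨v3, v4⟩ := hV2 x x2
    rw [← hP0] at v2 v3
    -- conclusion
    obtain ⟨Z, hZ⟩ : ∃ Z : ℝ, Z = x ^ (2 + R - 3 * ε) := ⟨_, rfl⟩
    have hZ0 : 0 < Z := by rw [hZ]; exact Real.rpow_pos_of_pos hx0 _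
    have hmono : ∀ e : ℝ, e ≤ 2 + R - 3 * ε → x ^ e ≤ Z := fun e he => by
      rw [hZ]; exact Real.rpow_le_rpow_of_exponent_le hx1 he
    have t1 : μ⁻¹ * ‖xi (1 / 2 + R2 + x * I)‖ ^ 2 ≤ E2 * Z * P0 := by
      have h1 : μ⁻¹ * x ^ (2 + R2 + 2 * ε) ≤ Z := by
        rw [hμ, ← Real.rpow_neg hx0.le, ← Real.rpow_add hx0]
        exact hmono _ (by linarith)
      calc μ⁻¹ * ‖xi (1 / 2 + R2 + x * I)‖ ^ 2 ≤ μ⁻¹ * (E2 * x ^ (2 + R2 + 2 * ε) * P0) :=
            mul_le_mul_of_nonneg_left v3 (by positivity)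
        _ = E2 * (μ⁻¹ * x ^ (2 + R2 + 2 * ε)) * P0 := by ring
        _ ≤ _ := by gcongr
    have t2 : (M : ℝ) * Q ≤ 2 * K * (1 / ε + 1) * Z * P0 := by
      have h1 : x ^ ε * x ^ (2 * (1 + A + ε) + r + g / 2 + g / 16) ≤ Z := by
        rw [← Real.rpow_add hx0]
        exact hmono _ (by linarith)
      calc (M : ℝ) * Q ≤ ((1 / ε + 1) * x ^ ε) * Q := mul_le_mul_of_nonneg_right hMle hQ0
        _ = 2 * K * (1 / ε + 1) * (x ^ ε * x ^ (2 * (1 + A + ε) + r + g / 2 + g / 16)) * P0 := by rw [hQ]; ring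
        _ ≤ _ := by gcongr
    have t3 : 2 * ‖xi (1 / 2 + R + x * I)‖ ^ 2 ≤ (E2 + 2 * K * (1 / ε + 1)) * Z * P0 := by
      have e0 : μ * (0 : ℝ) ^ 2 = 0 := by ring
      rw [e0, zero_add] at hlow
      have h5 := hsumle.trans hlow
      nlinarith
    have t4 : x ^ (2 + R - 2 * ε) * P0 ≤ K1 * Z * P0 := by
      calc x ^ (2 + R - 2 * ε) * P0 ≤ E1 * ‖xi (1 / 2 + R + x * I)‖ ^ 2 := v2
        _ ≤ E1 * ((E2 + 2 * K * (1 / ε + 1)) * Z * P0) := by
            apply mul_le_mul_of_nonneg_left _ (by linarith)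
            have : 0 ≤ ‖xi (1 / 2 + R + x * I)‖ ^ 2 := by positivity
            linarith
        _ = _ := by rw [hK1]; ring
    have t5 : x ^ (2 + R - 2 * ε) ≤ K1 * Z := le_of_mul_le_mul_right t4 hP0pos
    have t6 : x ^ (2 + R - 2 * ε) = x ^ ε * Z := by
      rw [hZ, ← Real.rpow_add hx0]; congr 1; ring
    rw [t6] at t5
    have t7 : x ^ ε ≤ K1 := le_of_mul_le_mul_right t5 hZ0
    have t8 : K1 + 1 ≤ x ^ ε := by
      have h8 := Real.rpow_le_rpow (z := ε) (by positivity) x4 hε0.le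
      rwa [← Real.rpow_mul (by positivity), one_div_mul_cancel (by positivity), Real.rpow_one] at h8
    linarith
  refine ⟨τ, hτ0, by linarith, max (max X1 X2) (max X3 ((K1 + 1) ^ (1 / ε))), fun s hs hT => ?_⟩
  by_contra hcon
  rw [not_le] at hcon
  have key : ∀ s : ℂ, riemannZeta s = 0 → max (max X1 X2) (max X3 ((K1 + 1) ^ (1 / ε))) ≤ s.im →
      1 / 2 + B - τ < s.re → False := by
    intro s hs hT hcon
    have hs1 : s.re < 1 := by
      by_contra h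
      rw [not_lt] at h
      exact riemannZeta_ne_zero_of_one_le_re h hs
    refine main s.im (s.re - 1 / 2) hT (by linarith) (by linarith) ?_
    have e : (1 / 2 + ((s.re - 1 / 2 : ℝ) : ℂ) + s.im * I) = s := by
      apply Complex.ext <;> simp
    rw [e, xi_eq (by linarith), (Zt_zero_iff (by linarith)).2 hs, zero_mul]
  rcases le_total 0 s.im with h0 | h0
  · rw [abs_of_nonneg h0] at hT
    exact key s hs hT hcon
  · rw [abs_of_nonpos h0] at hT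
    exact key ((starRingEnd ℂ) s) (by rw [riemannZeta_conj, hs, map_zero]) (by simpa using hT) (by simpa using hcon)

/-- **Z2** -/
theorem st_z2 (h3 : St_Z3) : St_Z2 := by
  intro A hA0 hA1 hU hL δ hδ
  set S : Set ℝ := {b : ℝ | 0 ≤ b ∧ Few (1 / 2 + b)} with hS
  have hSne : (1 / 2 : ℝ) ∈ S := ⟨by norm_num, by
    have : (1 / 2 + 1 / 2 : ℝ) = 1 := by norm_num
    rw [this]
    exact few_one⟩
  have hbdd : BddBelow S := ⟨0, fun b hb => hb.1⟩
  obtain ⟨B, hB⟩ : ∃ B : ℝ, B = sInf S := ⟨_, rfl⟩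
  have hB0 : 0 ≤ B := by rw [hB]; exact le_csInf ⟨_, hSne⟩ fun b hb => hb.1
  have hB1 : B ≤ 1 / 2 := by rw [hB]; exact csInf_le hbdd hSne
  have hF : ∀ ε > 0, Few (1 / 2 + B + ε) := by
    intro ε hε
    obtain ⟨b, hb, hbB⟩ := exists_lt_of_csInf_lt ⟨_, hSne⟩ (show sInf S < B + ε by rw [← hB]; linarith)
    exact hb.2.mono (by linarith)
  rcases le_or_gt B (2 * A) with hBA | hBA
  · refine (hF δ hδ).mono ?_
    linarith
  · exfalso
    obtain ⟨τ, hτ0, hτB, hτ⟩ := z2_core h3 hA0 hU hL hBA hB1 hF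
    have : B ≤ B - τ := by
      rw [hB]
      refine csInf_le hbdd ⟨?_, ?_⟩
      · rw [← hB]; linarith
      · rw [← hB]
        have e : 1 / 2 + (B - τ) = 1 / 2 + B - τ := by ring
        rw [e]
        exact hτ
    linarith

end Pool.Agent.Helper85.LQ
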