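import Pool.Agent.Helper75.LQ.Zs
import Pool.Agent.Helper68.JE.RegFew
import Pool.Agent.Helper85.LG.Pos

/-!
The direct part: few zeros give the Laguerre inequalities.
-/

set_option autoImplicit false
set_option maxHeartbeats 1000000

open Complex Filter Topology Set

namespace Pool.Agent.Helper85.LQ

open Pool.Agent.Helper75.LQ Pool.Agent.Helper85.LG Pool.Agent.Helper75.JE

/-- **Z8** -/
theorem st_z8 : St_Z8 := by
  intro hF κ hκ
  obtain ⟨T0, hT0⟩ := hF (κ / 2) (by positivity)
  have hreg : Reg κ := Pool.Agent.Helper68.JE.reg_few hT0 hκ (by linarith)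
  exact pos_log hκ hreg (by linarith)

end Pool.Agent.Helper85.LQ
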