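import Pool.Agent.Helper85.LQ.RegLoc
import Pool.Agent.Helper75.LQ.Yst

/-!
Packages Y2 and Y5 of the local linear law.
-/

set_option autoImplicit false
set_option maxHeartbeats 1000000

open Complex Filter Topology Set Metric
open Pool.Agent.H306R2 (Zt)
open Pool.Agent.Helper85.LG

namespace Pool.Agent.Helper85.LQ

open Pool.Agent.Helper85.DQ Pool.Agent.Helper75.LQ
open Pool.Agent.Helper39.LG (ld_diff Zt_two conv_seg)

/-- positivity of the Laguerre coefficients at one height -/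
theorem pos_loc {θ y0 c : ℝ} (hθ : 1 / 2 ≤ θ) (hy0 : 0 < y0) (hy : θ - 1 / 2 < y0) (hc : y0 / 2 < c) :
    ∃ R : ℝ, ∀ x : ℝ, R ≤ x → FreeBox θ R x → ∀ m : ℕ, c * Real.log x ≤ m → 0 < (Pool.Agent.Helper85.LG.tc (G x) (2 * m)).re := by
  obtain ⟨L1, hL11, hL1⟩ := pos_of_kap
  obtain ⟨C, hC1, hC⟩ := kap_est
  set d : ℝ := 2 * c - y0 with hd
  have hd0 : 0 < d := by rw [hd]; linarith
  set ε : ℝ := min (1 / 8192) (d / (4 * y0)) with hε
  have hε0 : 0 < ε := by rw [hε]; positivity
  have hε1 : ε ≤ 1 / 8192 := min_le_left _ _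
  have hε2 : ε ≤ d / (4 * y0) := min_le_right _ _
  obtain ⟨H, X0, hH0, hX0, hX0'⟩ := reg_loc hθ hy0 hy hε0
  refine ⟨max (max (max H X0) (2 * Real.exp L1)) (max (8 + y0) (max (Real.exp (2 * y0 * C / d)) (Real.exp (10 ^ 9 / (2 * c))))),
    fun x hx hfree m hm => ?_⟩
  have hfree' : FreeBox θ H x := hfree.mono (((le_max_left _ _).trans (le_max_left _ _)).trans (le_max_left _ _))
  have hx1 : X0 ≤ x := (((le_max_right _ _).trans (le_max_left _ _)).trans (le_max_left _ _)).trans hx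
  have hx2 : 2 * Real.exp L1 ≤ x := ((le_max_right _ _).trans (le_max_left _ _)).trans hx
  have hx3 : 8 + y0 ≤ x := ((le_max_left _ _).trans (le_max_right _ _)).trans hx
  have hx4 : Real.exp (2 * y0 * C / d) ≤ x :=
    (((le_max_left _ _).trans (le_max_right _ _)).trans (le_max_right _ _)).trans hx
  have hx5 : Real.exp (10 ^ 9 / (2 * c)) ≤ x :=
    (((le_max_right _ _).trans (le_max_right _ _)).trans (le_max_right _ _)).trans hx
  have hxpos : 0 < x := by linarith
  have hc0 : 0 < c := by linarith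
  have hlog4 : 2 * y0 * C / d ≤ Real.log x := (Real.le_log_iff_exp_le hxpos).2 hx4
  have hlog5 : 10 ^ 9 / (2 * c) ≤ Real.log x := (Real.le_log_iff_exp_le hxpos).2 hx5
  rw [div_le_iff₀ hd0] at hlog4
  rw [div_le_iff₀ (by positivity)] at hlog5
  refine hL1 x y0 m hy0 (by linarith) (fun y hy => ⟨?_, ?_⟩) ?_
  · exact (hX0' x hx1 hfree' y hy).mono hε1 (by linarith) (by simp; linarith)
  · have := Lg_lower (M := Real.exp L1) (Real.exp_pos _) hxpos.le (y := y) (by linarith) (Or.inl hx2)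
    rwa [Real.log_exp] at this
  · have h1 := (abs_le.1 (hC ε x y0 hy0 (hX0' x hx1 hfree' y0 le_rfl))).2
    have h2 : Lg (1 / 2 + y0 + x * I) ≤ Real.log x := (Lg_upper hxpos.le hy0.le).trans
      (Real.log_le_log (by positivity) (by linarith))
    have h0 : 0 ≤ Lg (1 / 2 + y0 + x * I) := Lg_nonneg (by simp; linarith)
    have h3 : ε * (4 * y0) ≤ d := by rwa [le_div_iff₀ (by positivity)] at hε2
    have hlx : 0 ≤ Real.log x := h0.trans h2
    have h4 : kap x y0 ≤ y0 * (1 + 2 * ε) * Real.log x + y0 * C := by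
      have : y0 * (1 + 2 * ε) * Lg (1 / 2 + y0 + x * I) ≤ y0 * (1 + 2 * ε) * Real.log x :=
        mul_le_mul_of_nonneg_left h2 (by positivity)
      nlinarith
    have h5 : y0 * (1 + 2 * ε) * Real.log x ≤ (2 * c - d / 2) * Real.log x := by
      apply mul_le_mul_of_nonneg_right _ hlx
      rw [hd] at h3 ⊢
      nlinarith
    nlinarith

lemma NoZ.free {B x R : ℝ} (h : NoZ B x R) : FreeBox (1 / 2 + B) R x := h

/-- **Y5** -/
theorem st_Y5 : St_Y5 := by
  intro B κ hκ hB
  obtain ⟨y0, hy0⟩ : ∃ y0 : ℝ, y0 = (max B 0 + 2 * κ) / 2 := ⟨_, rfl⟩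
  have h1 : max B 0 < 2 * κ := max_lt hB (by linarith)
  have h2 : B ≤ max B 0 := le_max_left _ _
  have h3 : 0 ≤ max B 0 := le_max_right _ _
  obtain ⟨R, hR⟩ := pos_loc (θ := 1 / 2 + max B 0) (y0 := y0) (c := κ) (by linarith) (by linarith) (by linarith)
    (by linarith)
  refine ⟨R, fun x hx hN m hm => hR x hx (FreeBox.mono_left (NoZ.free hN) (by linarith)) m hm⟩

/-- **Y2** -/
theorem st_Y2 : St_Y2 := by
  intro B r η hB hη
  obtain ⟨B2, hB21, hB2⟩ := zeta_two_sided (σ := 2) (by norm_num)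
  have hbd : ∀ {K : ℝ} {x : ℝ} {z : ℂ}, 0 < x → K ≤ x ^ η → ‖riemannZeta z‖ ≤ K → 1 ≤ K * ‖riemannZeta z‖ →
      x ^ (-η) ≤ ‖riemannZeta z‖ ∧ ‖riemannZeta z‖ ≤ x ^ η := by
    intro K x z hx hK h1 h2
    refine ⟨?_, h1.trans hK⟩
    have hp : 0 < x ^ η := Real.rpow_pos_of_pos hx _
    rw [Real.rpow_neg hx.le, inv_le_iff_one_le_mul₀ hp]
    have := mul_le_mul_of_nonneg_right hK (norm_nonneg (riemannZeta z))
    linarith
  rcases lt_or_ge 1 (1 / 2 + B + η) with hbig | hsmall
  · obtain ⟨K, hK1, hK⟩ := zeta_two_sided hbig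
    obtain ⟨X, hX⟩ := eventually_atTop.1 ((tendsto_rpow_atTop hη).eventually_ge_atTop K)
    refine ⟨max X 1, fun x hx _ s hs1 hs2 _ => ?_⟩
    have hx1 : 1 ≤ x := (le_max_right _ _).trans hx
    obtain ⟨k1, k2⟩ := hK s hs1
    exact hbd (by linarith) (hX x ((le_max_left _ _).trans hx)) k1 k2
  · obtain ⟨T, hT2, hT⟩ := bounds_loc (θ := 1 / 2 + B) (σ := 1 / 2 + B + η) (by linarith) (by linarith) hsmall
      (η := η / 2) (by positivity)
    obtain ⟨X1, hX1⟩ := eventually_atTop.1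
      ((tendsto_rpow_atTop (show 0 < η / 2 by positivity)).eventually_ge_atTop (8 * B2))
    refine ⟨max (max X1 (T + |r| + 2)) (2 * |r| + 8), fun x hx hN s hs1 hs2 hs3 => ?_⟩
    have hx1 : X1 ≤ x := ((le_max_left _ _).trans (le_max_left _ _)).trans hx
    have hx2 : T + |r| + 2 ≤ x := ((le_max_right _ _).trans (le_max_left _ _)).trans hx
    have hx3 : 2 * |r| + 8 ≤ x := (le_max_right _ _).trans hx
    have hr0 := abs_nonneg r
    have hx0 : 0 < x := by linarith
    have hs3' := abs_le.1 (hs3.trans (le_abs_self r))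
    have hxη : 8 * B2 ≤ x ^ (η / 2) := hX1 x hx1
    have hxη2 : x ^ η = x ^ (η / 2) * x ^ (η / 2) := by
      rw [← Real.rpow_add hx0]; congr 1; ring
    have hxη1 : 1 ≤ x ^ (η / 2) := by linarith
    rcases le_or_gt 2 s.re with h2 | h2
    · obtain ⟨k1, k2⟩ := hB2 s h2
      refine hbd hx0 ?_ k1 k2
      rw [hxη2]
      nlinarith
    · obtain ⟨t, ht⟩ : ∃ t : ℝ, t = s.im := ⟨_, rfl⟩
      have ht1 : T ≤ |t| := le_trans (by rw [ht]; linarith) (le_abs_self t)
      have hfr : ∀ w ∈ ball (0 : ℂ) (2 - (1 / 2 + B)), Zt (2 + t * I + w) ≠ 0 := by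
        intro w hw
        rw [mem_ball_zero_iff] at hw
        have hw2 := abs_le.1 ((Complex.abs_im_le_norm w).trans hw.le)
        have hw1 := (abs_le.1 (Complex.abs_re_le_norm w)).1
        refine (NoZ.free hN).Zt_ne (by linarith) ?_ ?_
        · simp
          linarith
        · have e : (2 + t * I + w : ℂ).im - x = (t - x) + w.im := by simp; ring
          rw [e, ht, abs_le]
          constructor
          · linarith [le_max_right (max X1 (T + |r| + 2)) (2 * |r| + 8)]
          · linarith [le_max_right (max X1 (T + |r| + 2)) (2 * |r| + 8)]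
      obtain ⟨b1, b2, -, -⟩ := hT t ht1 hfr s.re hs1 h2.le
      have es : ((s.re : ℂ) + t * I) = s := by rw [ht]; exact Complex.re_add_im s
      rw [es] at b1 b2
      have htpos : 0 < t := by rw [ht]; linarith
      have hs1' : s ≠ 1 := by
        intro h
        rw [h, one_im] at ht
        linarith
      have h21 : (2 + t * I : ℂ) ≠ 1 := by
        intro h
        have := congrArg Complex.im h
        simp at this
        linarith
      have e2re : (2 + t * I : ℂ).re = 2 := by simp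
      rw [← Pool.Agent.H306R2.zeta_eq_pos (by linarith) hs1', ← Pool.Agent.H306R2.zeta_eq_pos (by rw [e2re]; norm_num) h21,
        norm_mul, norm_mul] at b1 b2
      obtain ⟨k1, k2⟩ := hB2 (2 + t * I) (by rw [e2re])
      have n1 : ‖(2 + t * I : ℂ) - 1‖ ≤ 2 * ‖s - 1‖ := by
        have a1 := Complex.norm_le_abs_re_add_abs_im ((2 + t * I : ℂ) - 1)
        have a2 := Complex.abs_im_le_norm (s - 1)
        have e1 : ((2 + t * I : ℂ) - 1).re = 1 := by simp; norm_num
        have e3 : ((2 + t * I : ℂ) - 1).im = t := by simp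
        rw [e1, e3, abs_one, abs_of_pos htpos] at a1
        rw [sub_im, one_im, sub_zero, ← ht, abs_of_pos htpos] at a2
        have : 1 ≤ t := by rw [ht]; linarith
        linarith
      have n2 : ‖s - 1‖ ≤ 2 * ‖(2 + t * I : ℂ) - 1‖ := by
        have a1 := Complex.norm_le_abs_re_add_abs_im (s - 1)
        have a2 := Complex.abs_im_le_norm ((2 + t * I : ℂ) - 1)
        have e3 : ((2 + t * I : ℂ) - 1).im = t := by simp
        rw [e3, abs_of_pos htpos] at a2
        rw [sub_re, sub_im, one_re, one_im, sub_zero, ← ht, abs_of_pos htpos] at a1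
        have : |s.re - 1| ≤ 1 := by rw [abs_le]; constructor <;> linarith
        have : 1 ≤ t := by rw [ht]; linarith
        linarith
      have hp : 0 < ‖s - 1‖ := norm_pos_iff.2 (sub_ne_zero.2 hs1')
      have hp2 : 0 < ‖(2 + t * I : ℂ) - 1‖ := norm_pos_iff.2 (sub_ne_zero.2 h21)
      have hlog : Real.exp (η / 2 * Real.log |t|) ≤ 2 * x ^ (η / 2) := by
        have e4 : Real.exp (η / 2 * Real.log |t|) = |t| ^ (η / 2) := by
          rw [Real.rpow_def_of_pos (abs_pos.2 htpos.ne'), mul_comm]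
        rw [e4, abs_of_pos htpos]
        have h5 : t ≤ 2 * x := by rw [ht]; linarith
        calc t ^ (η / 2) ≤ (2 * x) ^ (η / 2) := Real.rpow_le_rpow htpos.le h5 (by positivity)
          _ = 2 ^ (η / 2) * x ^ (η / 2) := Real.mul_rpow (by norm_num) hx0.le
          _ ≤ 2 ^ (1 : ℝ) * x ^ (η / 2) := by
              refine mul_le_mul_of_nonneg_right ?_ (by positivity)
              exact Real.rpow_le_rpow_of_exponent_le (by norm_num) (by linarith)
          _ = _ := by rw [Real.rpow_one]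
      obtain ⟨e, he⟩ : ∃ e : ℝ, e = Real.exp (η / 2 * Real.log |t|) := ⟨_, rfl⟩
      rw [← he] at b1 b2 hlog
      have he0 : 0 < e := by rw [he]; exact Real.exp_pos _
      -- the ratio of the zeta values
      have c1 : ‖riemannZeta s‖ ≤ 2 * e * ‖riemannZeta (2 + t * I)‖ := by
        have h5 : ‖s - 1‖ * ‖riemannZeta s‖ ≤ ‖s - 1‖ * (2 * e * ‖riemannZeta (2 + t * I)‖) := by
          calc ‖s - 1‖ * ‖riemannZeta s‖ ≤ ‖(2 + t * I : ℂ) - 1‖ * ‖riemannZeta (2 + t * I)‖ * e := b1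
            _ ≤ (2 * ‖s - 1‖) * ‖riemannZeta (2 + t * I)‖ * e := by gcongr
            _ = _ := by ring
        exact le_of_mul_le_mul_left h5 hp
      have c2 : ‖riemannZeta (2 + t * I)‖ ≤ 2 * e * ‖riemannZeta s‖ := by
        have h5 : ‖(2 + t * I : ℂ) - 1‖ * ‖riemannZeta (2 + t * I)‖ ≤
            ‖(2 + t * I : ℂ) - 1‖ * (2 * e * ‖riemannZeta s‖) := by
          calc ‖(2 + t * I : ℂ) - 1‖ * ‖riemannZeta (2 + t * I)‖ ≤ ‖s - 1‖ * ‖riemannZeta s‖ * e := b2
            _ ≤ (2 * ‖(2 + t * I : ℂ) - 1‖) * ‖riemannZeta s‖ * e := by gcongr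
            _ = _ := by ring
        exact le_of_mul_le_mul_left h5 hp2
      have hKx : 2 * e * B2 ≤ x ^ η := by
        rw [hxη2]
        calc 2 * e * B2 ≤ 2 * (2 * x ^ (η / 2)) * B2 := by gcongr
          _ = (4 * B2) * x ^ (η / 2) := by ring
          _ ≤ x ^ (η / 2) * x ^ (η / 2) := by
              refine mul_le_mul_of_nonneg_right (by linarith) (by positivity)
      refine hbd (K := 2 * e * B2) hx0 hKx ?_ ?_
      · exact c1.trans (mul_le_mul_of_nonneg_left k1 (by positivity))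
      · calc 1 ≤ B2 * ‖riemannZeta (2 + t * I)‖ := k2
          _ ≤ B2 * (2 * e * ‖riemannZeta s‖) := mul_le_mul_of_nonneg_left c2 (by linarith)
          _ = _ := by ring

end Pool.Agent.Helper85.LQ
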