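import Pool.Agent.Helper85.LQ.Y25
import Pool.Agent.Helper59.LQ.ZG

/-!
Package Y4 of the local linear law.
-/

set_option autoImplicit false
set_option maxHeartbeats 4000000

open Complex Filter Topology Set Metric
open Pool.Agent.H306R2 (Zt)
open Pool.Agent.Helper85.LG

namespace Pool.Agent.Helper85.LQ

open Pool.Agent.Helper85.DQ Pool.Agent.Helper75.LQ Pool.Agent.Helper59.LQ

/-- the numerical core -/
theorem core_num {x b R R2 r ℓ N μ' h κ' ε : ℝ} (hb0 : 0 < b) (hbR2 : b ≤ R2) (hRR : R ^ 2 ≤ b * R2)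
    (hR0 : 0 < R) (hr0 : 0 < r) (hrR2 : r ≤ R2) (hN : 0 < N) (hℓ : 0 ≤ ℓ) (hκ' : 0 ≤ κ')
    (hμ' : 0 ≤ μ') (hpos : ∀ m : ℕ, κ' * ℓ ≤ m → 0 ≤ Lm x m)
    (hhead : ∀ m : ℕ, |Lm x m| ≤ Real.exp (ℓ * h) * N / r ^ (2 * m))
    (hV1 : Real.exp (ℓ * (R - ε)) * N ≤ ‖xi (1 / 2 + R + x * I)‖ ^ 2)
    (hV2 : ‖xi (1 / 2 + R2 + x * I)‖ ^ 2 ≤ Real.exp (ℓ * (R2 + ε)) * N)
    (h1 : R2 + ε - μ' ≤ R - 2 * ε) (h2 : h + μ' + 2 * κ' * Real.log (R2 / r) + ε ≤ R - 2 * ε)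
    (hbig : 2 * (κ' * ℓ + 1) ≤ Real.exp (ε * ℓ)) (hbig2 : 1 < Real.exp (ε * ℓ))
    (hzero : xi (1 / 2 + b + x * I) = 0) : False := by
  have hR20 : 0 < R2 := by linarith
  obtain ⟨μ, hμ⟩ : ∃ μ : ℝ, μ = Real.exp (ℓ * μ') := ⟨_, rfl⟩
  have hμ0 : 0 < μ := by rw [hμ]; exact Real.exp_pos _
  have hμ1 : 1 ≤ μ := by rw [hμ]; exact Real.one_le_exp (by positivity)
  have hl0 : 0 ≤ Real.log (R2 / r) := Real.log_nonneg (by rw [le_div_iff₀ hr0]; linarith)
  have S1 := (G_series x b).mul_left μ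
  have S2 := (G_series x R2).mul_left μ⁻¹
  have S3 := (G_series x R).mul_left 2
  have S := (S1.add S2).sub S3
  rw [hzero, norm_zero] at S
  obtain ⟨w, hw⟩ : ∃ w : ℕ → ℝ, w = fun m => μ * b ^ (2 * m) + μ⁻¹ * R2 ^ (2 * m) - 2 * R ^ (2 * m) := ⟨_, rfl⟩
  have hw0 : ∀ m, 0 ≤ w m := by
    intro m
    have h1 : R ^ (2 * m) ≤ b ^ m * R2 ^ m := by
      rw [pow_mul, ← mul_pow]
      exact pow_le_pow_left₀ (sq_nonneg _) hRR m
    have h2 : 2 * (b ^ m * R2 ^ m) ≤ μ * b ^ (2 * m) + μ⁻¹ * R2 ^ (2 * m) := by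
      have e1 : b ^ (2 * m) = b ^ m * b ^ m := by rw [← pow_add]; congr 1; ring
      have e2 : R2 ^ (2 * m) = R2 ^ m * R2 ^ m := by rw [← pow_add]; congr 1; ring
      rw [e1, e2]
      have h3 : 0 ≤ μ⁻¹ * (μ * b ^ m - R2 ^ m) ^ 2 := by positivity
      have h4 : μ⁻¹ * (μ * b ^ m - R2 ^ m) ^ 2 =
          μ * (b ^ m * b ^ m) + μ⁻¹ * (R2 ^ m * R2 ^ m) - 2 * (b ^ m * R2 ^ m) := by
        field_simp
        ring
      linarith
    simp only [hw]
    linarith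
  have hS : HasSum (fun m => Lm x m * w m) (μ * 0 ^ 2 + μ⁻¹ * ‖xi (1 / 2 + R2 + x * I)‖ ^ 2 -
      2 * ‖xi (1 / 2 + R + x * I)‖ ^ 2) := by
    refine S.congr_fun ?_
    intro m
    simp only [hw]
    ring
  set M : ℕ := ⌈κ' * ℓ⌉₊ with hM
  have hlow := sum_le_hasSum (Finset.range M) (fun m hm => by
    rw [Finset.mem_range, not_lt] at hm
    have h1 : κ' * ℓ ≤ m := (Nat.le_ceil _).trans (by exact_mod_cast hm)
    exact mul_nonneg (hpos m h1) (hw0 m)) hS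
  obtain ⟨Q, hQ⟩ : ∃ Q : ℝ, Q = 2 * Real.exp (ℓ * (R - 3 * ε)) * N := ⟨_, rfl⟩
  have hQ0 : 0 ≤ Q := by rw [hQ]; positivity
  have hheadQ : ∀ m ∈ Finset.range M, -Q ≤ Lm x m * w m := by
    intro m hm
    rw [Finset.mem_range, hM, Nat.lt_ceil] at hm
    have k1 := hhead m
    have hrp : 0 < r ^ (2 * m) := by positivity
    have hwle : w m ≤ 2 * μ * R2 ^ (2 * m) := by
      simp only [hw]
      have h5 : 0 ≤ 2 * R ^ (2 * m) := by positivity
      have h6 : b ^ (2 * m) ≤ R2 ^ (2 * m) := pow_le_pow_left₀ hb0.le hbR2 _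
      have h7 : 0 ≤ R2 ^ (2 * m) := by positivity
      have h8 : μ⁻¹ ≤ μ := (inv_le_one_of_one_le₀ hμ1).trans hμ1
      have h9 : μ * b ^ (2 * m) ≤ μ * R2 ^ (2 * m) := by gcongr
      have h10 : μ⁻¹ * R2 ^ (2 * m) ≤ μ * R2 ^ (2 * m) := by gcongr
      linarith
    have hrm : R2 ^ (2 * m) / r ^ (2 * m) ≤ Real.exp (ℓ * (2 * κ' * Real.log (R2 / r))) := by
      rw [← div_pow, ← Real.rpow_natCast, Real.rpow_def_of_pos (by positivity)]
      apply Real.exp_le_exp.2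
      push_cast
      calc Real.log (R2 / r) * (2 * m) ≤ Real.log (R2 / r) * (2 * (κ' * ℓ)) := by gcongr
        _ = _ := by ring
    have h2' : |Lm x m * w m| ≤ Q := by
      rw [abs_mul, abs_of_nonneg (hw0 m)]
      calc |Lm x m| * w m ≤ (Real.exp (ℓ * h) * N / r ^ (2 * m)) * (2 * μ * R2 ^ (2 * m)) :=
            mul_le_mul k1 hwle (hw0 m) (by positivity)
        _ = 2 * (Real.exp (ℓ * h) * μ) * N * (R2 ^ (2 * m) / r ^ (2 * m)) := by ring
        _ ≤ 2 * (Real.exp (ℓ * h) * μ) * N * Real.exp (ℓ * (2 * κ' * Real.log (R2 / r))) := by gcongr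
        _ = 2 * (Real.exp (ℓ * h) * μ * Real.exp (ℓ * (2 * κ' * Real.log (R2 / r)))) * N := by ring
        _ ≤ 2 * Real.exp (ℓ * (R - 3 * ε)) * N := by
            rw [hμ, ← Real.exp_add, ← Real.exp_add]
            refine mul_le_mul_of_nonneg_right (mul_le_mul_of_nonneg_left (Real.exp_le_exp.2 ?_) (by norm_num)) hN.le
            have : ℓ * h + ℓ * μ' + ℓ * (2 * κ' * Real.log (R2 / r)) = ℓ * (h + μ' + 2 * κ' * Real.log (R2 / r)) := by
              ring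
            rw [this]
            exact mul_le_mul_of_nonneg_left (by linarith) hℓ
        _ = Q := hQ.symm
    exact (abs_le.1 h2').1
  have hsumle := Finset.sum_le_sum hheadQ
  rw [Finset.sum_const, Finset.card_range, nsmul_eq_mul] at hsumle
  have hMle : (M : ℝ) * 2 ≤ Real.exp (ε * ℓ) := by
    have k1 : (M : ℝ) < κ' * ℓ + 1 := Nat.ceil_lt_add_one (by positivity)
    linarith
  obtain ⟨Z, hZ⟩ : ∃ Z : ℝ, Z = Real.exp (ℓ * (R - 2 * ε)) * N := ⟨_, rfl⟩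
  have hZ0 : 0 < Z := by rw [hZ]; positivity
  have t1 : μ⁻¹ * ‖xi (1 / 2 + R2 + x * I)‖ ^ 2 ≤ Z := by
    calc μ⁻¹ * ‖xi (1 / 2 + R2 + x * I)‖ ^ 2 ≤ μ⁻¹ * (Real.exp (ℓ * (R2 + ε)) * N) :=
          mul_le_mul_of_nonneg_left hV2 (by positivity)
      _ = Real.exp (ℓ * (R2 + ε - μ')) * N := by
          rw [hμ, ← Real.exp_neg, ← mul_assoc, ← Real.exp_add]
          congr 2
          ring
      _ ≤ Z := by
          rw [hZ]
          exact mul_le_mul_of_nonneg_right (Real.exp_le_exp.2 (mul_le_mul_of_nonneg_left h1 hℓ)) hN.le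
  have t2 : (M : ℝ) * Q ≤ Z := by
    calc (M : ℝ) * Q = ((M : ℝ) * 2) * (Real.exp (ℓ * (R - 3 * ε)) * N) := by rw [hQ]; ring
      _ ≤ Real.exp (ε * ℓ) * (Real.exp (ℓ * (R - 3 * ε)) * N) := by gcongr
      _ = Z := by
          rw [hZ, ← mul_assoc, ← Real.exp_add]
          congr 2
          ring
  have t3 : ‖xi (1 / 2 + R + x * I)‖ ^ 2 ≤ Z := by
    have e0 : μ * (0 : ℝ) ^ 2 = 0 := by ring
    rw [e0, zero_add] at hlow
    have h5 := hsumle.trans hlow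
    linarith
  have t4 := hV1.trans t3
  have t6 : Real.exp (ℓ * (R - ε)) * N = Real.exp (ε * ℓ) * Z := by
    rw [hZ, ← mul_assoc, ← Real.exp_add]
    congr 2
    ring
  rw [t6] at t4
  nlinarith

lemma LineB.mono {A x R R' : ℝ} (h : LineB A x R) (hR : R' ≤ R) : LineB A x R' := fun t ht => h t (ht.trans hR)

lemma NoZ.mono {B x R R' : ℝ} (h : NoZ B x R) (hR : R' ≤ R) : NoZ B x R' := fun s hs ht => h s hs (ht.trans hR)

lemma Nx_pos' {x : ℝ} (hx : 0 < x) : 0 < Nx x := by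
  unfold Nx
  have : 0 < ‖Pg (1 / 2 + x * I)‖ := norm_pos_iff.2 (Pg_ne (by simp))
  positivity

lemma lin_mul_exp {c ε K : ℝ} (hε : 0 < ε) (hK : 0 < K) : ∃ X : ℝ, ∀ ℓ : ℝ, X ≤ ℓ → K * (c * ℓ + 1) ≤ Real.exp (ε * ℓ) := by
  refine ⟨max 0 (2 * K * (|c| / ε + 1) / ε), fun ℓ hℓ => ?_⟩
  have h0 : 0 ≤ ℓ := (le_max_left _ _).trans hℓ
  have h1 : 2 * K * (|c| / ε + 1) / ε ≤ ℓ := (le_max_right _ _).trans hℓ
  rw [div_le_iff₀ hε] at h1
  have h2 := Real.quadratic_le_exp_of_nonneg (x := ε * ℓ) (by positivity)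
  have h3 : 0 ≤ |c| := abs_nonneg c
  have h4 : c * ℓ ≤ |c| * ℓ := mul_le_mul_of_nonneg_right (le_abs_self c) h0
  have h5 : K * (|c| * ℓ) ≤ (ε * ℓ) ^ 2 / 2 := by
    have h6 : 2 * K * (|c| / ε) ≤ ℓ * ε := by
      have : 0 ≤ 2 * K := by positivity
      nlinarith
    have h7 : 2 * K * (|c| / ε) * (ε * ℓ) ≤ (ℓ * ε) * (ε * ℓ) := mul_le_mul_of_nonneg_right h6 (by positivity)
    have h8 : 2 * K * (|c| / ε) * (ε * ℓ) = 2 * (K * (|c| * ℓ)) := by field_simp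
    rw [h8] at h7
    nlinarith
  have h9 : K ≤ ε * ℓ := by
    have : 0 ≤ 2 * K * (|c| / ε) := by positivity
    nlinarith
  nlinarith

/-- **Y4**, from the local growth of zeta -/
theorem st_Y4 (hY1 : St_Y1) : St_Y4 := by
  intro A κ r B hA0 hA1 hκ0 hr0 hrB hB1 hlt
  have hB0 : 0 < B := by linarith
  have hlBr : 0 ≤ Real.log (B / r) := Real.log_nonneg (by rw [le_div_iff₀ hr0]; linarith)
  obtain ⟨g, hg⟩ : ∃ g : ℝ, g = B - (2 * A + r + 2 * κ * Real.log (B / r)) := ⟨_, rfl⟩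
  have hg0 : 0 < g := by linarith
  have hgB : g ≤ B := by
    have : 0 ≤ 2 * κ * Real.log (B / r) := by positivity
    linarith
  obtain ⟨s, hs⟩ : ∃ s : ℝ, s = g * B / (96 * (κ + 1)) := ⟨_, rfl⟩
  have hs0 : 0 < s := by rw [hs]; positivity
  have hsg : s ≤ g / 96 := by
    rw [hs, div_le_div_iff₀ (by positivity) (by norm_num)]
    nlinarith [mul_pos hg0 hB0]
  have hsκ : 6 * κ * s / B ≤ g / 16 := by
    have e : 6 * κ * s / B = 6 * κ * g / (96 * (κ + 1)) := by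
      rw [hs]; field_simp
    rw [e, div_le_div_iff₀ (by positivity) (by norm_num)]
    nlinarith
  have hl1 : 0 ≤ Real.log (1 / r) := Real.log_nonneg (by rw [le_div_iff₀ hr0]; linarith)
  obtain ⟨τ, hτ⟩ : ∃ τ : ℝ, τ = min (s / 4) ((g / 32) / (Real.log (1 / r) + 1)) := ⟨_, rfl⟩
  have hτ0 : 0 < τ := by rw [hτ]; positivity
  have hτs : τ ≤ s / 4 := by rw [hτ]; exact min_le_left _ _
  have hτl : τ * Real.log (1 / r) ≤ g / 32 := by
    have h1 : τ ≤ (g / 32) / (Real.log (1 / r) + 1) := by rw [hτ]; exact min_le_right _ _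
    rw [le_div_iff₀ (by linarith)] at h1
    nlinarith
  obtain ⟨ε, hε⟩ : ∃ ε : ℝ, ε = s / 8 := ⟨_, rfl⟩
  have hε0 : 0 < ε := by linarith
  have hBτ : 0 < B - τ := by linarith
  obtain ⟨R, hR⟩ : ∃ R : ℝ, R = B + s := ⟨_, rfl⟩
  have hR0 : 0 < R := by linarith
  obtain ⟨R2, hR2⟩ : ∃ R2 : ℝ, R2 = R ^ 2 / (B - τ) := ⟨_, rfl⟩
  have hR2e : R2 * (B - τ) = R ^ 2 := by rw [hR2]; field_simp
  have hR2le : R2 ≤ B + 3 * s := by
    rw [hR2, div_le_iff₀ hBτ, hR]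
    have h1 : (B + 3 * s) * (B - s / 4) ≤ (B + 3 * s) * (B - τ) := mul_le_mul_of_nonneg_left (by linarith) (by linarith)
    nlinarith
  have hR2ge : R ≤ R2 := by
    rw [hR2, le_div_iff₀ hBτ, sq]
    exact mul_le_mul_of_nonneg_left (by linarith) hR0.le
  have hR20 : 0 < R2 := by linarith
  have hR21 : R2 ≤ 1 := by linarith
  have hrR2 : r ≤ R2 := by linarith
  have hl0 : 0 ≤ Real.log (R2 / r) := Real.log_nonneg (by rw [le_div_iff₀ hr0]; linarith)
  have hlogsplit : Real.log (R2 / r) ≤ Real.log (B / r) + 3 * s / B := by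
    have e : R2 / r = (B / r) * (R2 / B) := by field_simp
    rw [e, Real.log_mul (by positivity) (by positivity)]
    have h1 : Real.log (R2 / B) ≤ R2 / B - 1 := Real.log_le_sub_one_of_pos (by positivity)
    have h2 : R2 / B - 1 ≤ 3 * s / B := by
      rw [div_sub_one hB0.ne', div_le_div_iff_of_pos_right hB0]
      linarith
    linarith
  have hlog1 : Real.log (R2 / r) ≤ Real.log (1 / r) :=
    Real.log_le_log (by positivity) (div_le_div_of_nonneg_right hR21 hr0.le)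
  have hκ'l : 2 * (κ + τ) * Real.log (R2 / r) ≤ 2 * κ * Real.log (B / r) + g / 8 := by
    have h1 : 2 * κ * Real.log (R2 / r) ≤ 2 * κ * (Real.log (B / r) + 3 * s / B) :=
      mul_le_mul_of_nonneg_left hlogsplit (by positivity)
    have h2 : 2 * κ * (3 * s / B) = 6 * κ * s / B := by ring
    have h3 : 2 * τ * Real.log (R2 / r) ≤ 2 * τ * Real.log (1 / r) := mul_le_mul_of_nonneg_left hlog1 (by positivity)
    nlinarith
  obtain ⟨Ra, hRa⟩ := hY1 (A + τ) 3 (ε / 4) (by linarith) (by linarith) (by linarith)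
  obtain ⟨Rb, hRb⟩ := st_Y2 (B + τ) 2 (ε / 4) (by linarith) (by linarith)
  obtain ⟨C0, Xc, hc⟩ := z5 1
  obtain ⟨C, hC⟩ : ∃ C : ℝ, C = |C0| := ⟨_, rfl⟩
  have hC0 : 0 ≤ C := by rw [hC]; exact abs_nonneg _
  obtain ⟨Xe, hXe⟩ := lin_mul_exp (c := κ + τ) hε0 (K := 2) (by norm_num)
  obtain ⟨R0, hR0'⟩ : ∃ R0 : ℝ, R0 = max (max (max Ra Rb) (Xc + 1)) (max 10 (max (Real.exp Xe)
    (Real.exp ((2 * C + 4) / (ε / 2))))) := ⟨_, rfl⟩
  refine ⟨τ, hτ0, by linarith, R0, fun x hx hLB hNZ hLag => ?_⟩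
  have hx1 : Ra ≤ R0 := by rw [hR0']; exact ((le_max_left _ _).trans (le_max_left _ _)).trans (le_max_left _ _)
  have hx2 : Rb ≤ R0 := by rw [hR0']; exact ((le_max_right _ _).trans (le_max_left _ _)).trans (le_max_left _ _)
  have hx3 : Xc + 1 ≤ R0 := by rw [hR0']; exact (le_max_right _ _).trans (le_max_left _ _)
  have hx4 : 10 ≤ R0 := by rw [hR0']; exact (le_max_left _ _).trans (le_max_right _ _)
  have hx5 : Real.exp Xe ≤ R0 := by
    rw [hR0']; exact ((le_max_left _ _).trans (le_max_right _ _)).trans (le_max_right _ _)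
  have hx6 : Real.exp ((2 * C + 4) / (ε / 2)) ≤ R0 := by
    rw [hR0']; exact ((le_max_right _ _).trans (le_max_right _ _)).trans (le_max_right _ _)
  have hx0 : 0 < x := by linarith
  obtain ⟨ℓ, hℓ⟩ : ∃ ℓ : ℝ, ℓ = Real.log x := ⟨_, rfl⟩
  have hℓ0 : 0 ≤ ℓ := by rw [hℓ]; exact Real.log_nonneg (by linarith)
  have hℓ5 : Xe ≤ ℓ := by rw [hℓ, Real.le_log_iff_exp_le hx0]; linarith
  have hℓ6 : 2 * C + 4 ≤ ε / 2 * ℓ := by
    have : (2 * C + 4) / (ε / 2) ≤ ℓ := by rw [hℓ, Real.le_log_iff_exp_le hx0]; linarith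
    rw [div_le_iff₀ (by positivity)] at this
    linarith
  have hLB' := LineB.mono hLB hx1
  have hNZ' := NoZ.mono hNZ hx2
  have zup := hRa x (hx1.trans hx) hLB'
  have ztwo := hRb x (hx2.trans hx) hNZ'
  intro z hz hzx
  by_contra hcon
  rw [not_le] at hcon
  have hzx' := abs_le.1 hzx
  obtain ⟨b, hb⟩ : ∃ b : ℝ, b = z.re - 1 / 2 := ⟨_, rfl⟩
  obtain ⟨t, ht⟩ : ∃ t : ℝ, t = z.im := ⟨_, rfl⟩
  have hbB : b ≤ B + τ := by
    have := hNZ z hz (by linarith)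
    linarith
  have ht0 : 0 < t := by linarith
  have htx : |t - x| ≤ 1 := by rw [ht]; exact hzx
  obtain ⟨lt, hlt'⟩ : ∃ lt : ℝ, lt = Real.log t := ⟨_, rfl⟩
  have hlt1 : lt ≤ ℓ + 1 := by
    have h1 : Real.log t ≤ Real.log (2 * x) := Real.log_le_log ht0 (by linarith)
    rw [Real.log_mul (by norm_num) hx0.ne'] at h1
    have := Real.log_two_lt_d9
    rw [hlt', hℓ]
    linarith
  have hlt2 : ℓ - 1 ≤ lt := by
    have h1 : Real.log (x / 2) ≤ Real.log t := Real.log_le_log (by positivity) (by linarith)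
    rw [Real.log_div hx0.ne' (by norm_num)] at h1
    have := Real.log_two_lt_d9
    rw [hlt', hℓ]
    linarith
  have hNt := Nx_pos' ht0
  have hNt2 : 0 < Nx t ^ 2 := by positivity
  -- powers of `x` and `t`
  have hxp : ∀ a : ℝ, x ^ a = Real.exp (ℓ * a) := fun a => by rw [Real.rpow_def_of_pos hx0, hℓ]
  have htp : ∀ a : ℝ, t ^ a = Real.exp (lt * a) := fun a => by rw [Real.rpow_def_of_pos ht0, hlt']
  -- comparison of `xi` and `ζ` near the height `t`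
  have hz5 : ∀ (v y : ℝ), |v| ≤ 1 → 0 ≤ y → y ≤ 8 →
      ‖xi (1 / 2 + y + (t + v) * I)‖ ≤ Real.exp (C + lt * (y / 2)) * Nx t * ‖riemannZeta (1 / 2 + y + (t + v) * I)‖ ∧
      Real.exp (-C + lt * (y / 2)) * Nx t * ‖riemannZeta (1 / 2 + y + (t + v) * I)‖ ≤
        ‖xi (1 / 2 + y + (t + v) * I)‖ := by
    intro v y hv hy0 hy8
    obtain ⟨c1, c2⟩ := hc t (by linarith) v y hv hy0 hy8
    rw [htp] at c1 c2
    have hC1 : Real.exp C0 ≤ Real.exp C := Real.exp_le_exp.2 (by rw [hC]; exact le_abs_self _)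
    have hC2 : Real.exp (-C) ≤ Real.exp (-C0) := Real.exp_le_exp.2 (by rw [hC]; linarith [le_abs_self C0])
    have hN' : t * ‖Pg (1 / 2 + t * I)‖ = Nx t := rfl
    rw [hN'] at c1 c2
    rw [Real.exp_add, Real.exp_add]
    constructor
    · refine c1.trans ?_
      gcongr
    · refine le_trans ?_ c2
      gcongr
  have hv0 : ∀ y : ℝ, 0 ≤ y → y ≤ 8 → xi (1 / 2 + y + t * I) = xi (1 / 2 + y + (t + (0 : ℝ)) * I) := by
    intro y _ _
    simp
  -- the value at `R`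
  have hre : ∀ y : ℝ, (1 / 2 + (y : ℂ) + (t + (0 : ℝ)) * I).re = 1 / 2 + y := by intro y; simp
  have him : ∀ y : ℝ, (1 / 2 + (y : ℂ) + (t + (0 : ℝ)) * I).im = t := by intro y; simp
  have V1 : Real.exp (ℓ * (R - ε)) * Nx t ^ 2 ≤ ‖xi (1 / 2 + R + t * I)‖ ^ 2 := by
    have k1 := (hz5 0 R (by simp) hR0.le (by linarith)).2
    have k2 := (ztwo (1 / 2 + (R : ℂ) + (t + (0 : ℝ)) * I) (by rw [hre]; linarith) (by rw [hre]; linarith)
      (by rw [him]; linarith)).1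
    rw [hxp] at k2
    have k3 : Real.exp (-C + lt * (R / 2)) * Nx t * Real.exp (ℓ * -(ε / 4)) ≤ ‖xi (1 / 2 + R + t * I)‖ := by
      rw [hv0 R hR0.le (by linarith)]
      exact (mul_le_mul_of_nonneg_left k2 (by positivity)).trans k1
    have k4 := pow_le_pow_left₀ (by positivity) k3 2
    refine le_trans ?_ k4
    have e : (Real.exp (-C + lt * (R / 2)) * Nx t * Real.exp (ℓ * -(ε / 4))) ^ 2 =
        Real.exp (2 * (-C + lt * (R / 2)) + 2 * (ℓ * -(ε / 4))) * Nx t ^ 2 := by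
      rw [mul_pow, mul_pow, ← Real.exp_nat_mul, ← Real.exp_nat_mul, Real.exp_add]
      push_cast
      ring
    rw [e]
    refine mul_le_mul_of_nonneg_right (Real.exp_le_exp.2 ?_) hNt2.le
    have h5 : (ℓ - 1) * R ≤ lt * R := mul_le_mul_of_nonneg_right hlt2 hR0.le
    have h6 : 2 * (-C + lt * (R / 2)) + 2 * (ℓ * -(ε / 4)) = lt * R - 2 * C - ε / 2 * ℓ := by ring
    have h7 : ℓ * (R - ε) = (ℓ - 1) * R + R - ε / 2 * ℓ - ε / 2 * ℓ := by ring
    rw [h6, h7]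
    linarith only [h5, hℓ6, hR2ge, hR21]
  have V2 : ‖xi (1 / 2 + R2 + t * I)‖ ^ 2 ≤ Real.exp (ℓ * (R2 + ε)) * Nx t ^ 2 := by
    have k1 := (hz5 0 R2 (by simp) hR20.le (by linarith)).1
    have k2 := (ztwo (1 / 2 + (R2 : ℂ) + (t + (0 : ℝ)) * I) (by rw [hre]; linarith) (by rw [hre]; linarith)
      (by rw [him]; linarith)).2
    rw [hxp] at k2
    have k3 : ‖xi (1 / 2 + R2 + t * I)‖ ≤ Real.exp (C + lt * (R2 / 2)) * Nx t * Real.exp (ℓ * (ε / 4)) := by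
      rw [hv0 R2 hR20.le (by linarith)]
      exact k1.trans (mul_le_mul_of_nonneg_left k2 (by positivity))
    have k4 := pow_le_pow_left₀ (norm_nonneg _) k3 2
    refine k4.trans ?_
    have e : (Real.exp (C + lt * (R2 / 2)) * Nx t * Real.exp (ℓ * (ε / 4))) ^ 2 =
        Real.exp (2 * (C + lt * (R2 / 2)) + 2 * (ℓ * (ε / 4))) * Nx t ^ 2 := by
      rw [mul_pow, mul_pow, ← Real.exp_nat_mul, ← Real.exp_nat_mul, Real.exp_add]
      push_cast
      ring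
    rw [e]
    refine mul_le_mul_of_nonneg_right (Real.exp_le_exp.2 ?_) hNt2.le
    have h5 : lt * R2 ≤ (ℓ + 1) * R2 := mul_le_mul_of_nonneg_right hlt1 hR20.le
    have h6 : 2 * (C + lt * (R2 / 2)) + 2 * (ℓ * (ε / 4)) = lt * R2 + 2 * C + ε / 2 * ℓ := by ring
    have h7 : ℓ * (R2 + ε) = (ℓ + 1) * R2 - R2 + ε / 2 * ℓ + ε / 2 * ℓ := by ring
    rw [h6, h7]
    linarith only [h5, hℓ6, hR21]
  -- the head
  have hcircle : ∀ w : ℂ, ‖w‖ ≤ r → ‖xi (1 / 2 + w + t * I)‖ ≤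
      Real.exp (C + lt * (r / 2)) * Nx t * Real.exp (ℓ * (A + τ + ε / 4)) := by
    have hlt0 : 0 ≤ lt := by
      rw [hlt']
      exact Real.log_nonneg (by linarith)
    have main : ∀ w : ℂ, ‖w‖ ≤ r → 0 ≤ w.re → ‖xi (1 / 2 + w + t * I)‖ ≤
        Real.exp (C + lt * (r / 2)) * Nx t * Real.exp (ℓ * (A + τ + ε / 4)) := by
      intro w hw hw0
      have h1 := (Complex.abs_im_le_norm w).trans hw
      have h2 := (le_abs_self _).trans ((Complex.abs_re_le_norm w).trans hw)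
      have h1' := abs_le.1 h1
      have e : (1 / 2 + w + t * I : ℂ) = 1 / 2 + ((w.re : ℝ) : ℂ) + (t + ((w.im : ℝ) : ℂ)) * I := by
        apply Complex.ext
        · simp
        · simp
          ring
      have k1 := (hz5 w.im w.re (by linarith) hw0 (by linarith)).1
      have e1 : (1 / 2 + ((w.re : ℝ) : ℂ) + (t + ((w.im : ℝ) : ℂ)) * I).re = 1 / 2 + w.re := by simp
      have e2 : (1 / 2 + ((w.re : ℝ) : ℂ) + (t + ((w.im : ℝ) : ℂ)) * I).im = t + w.im := by simp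
      have k2 := zup (1 / 2 + ((w.re : ℝ) : ℂ) + (t + ((w.im : ℝ) : ℂ)) * I) (by rw [e1]; linarith)
        (by rw [e2, abs_le]; constructor <;> linarith)
      rw [hxp] at k2
      rw [e]
      refine k1.trans ?_
      have k3 : Real.exp (C + lt * (w.re / 2)) ≤ Real.exp (C + lt * (r / 2)) :=
        Real.exp_le_exp.2 (by
          have := mul_le_mul_of_nonneg_left (show w.re / 2 ≤ r / 2 by linarith only [h2]) hlt0
          linarith only [this])
      exact mul_le_mul (mul_le_mul_of_nonneg_right k3 hNt.le) k2 (norm_nonneg _)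
        (mul_nonneg (Real.exp_pos _).le hNt.le)
    intro w hw
    rcases le_total 0 w.re with h | h
    · exact main w hw h
    · rw [xi_sym]
      refine main _ ?_ ?_
      · rw [norm_neg, Complex.norm_conj]; exact hw
      · simp; linarith
  have hhead : ∀ m : ℕ, |Lm t m| ≤ Real.exp (ℓ * (2 * (A + τ) + r + ε)) * Nx t ^ 2 / r ^ (2 * m) := by
    intro m
    have k1 : ∀ w : ℂ, ‖w‖ = r → ‖G t w‖ ≤ Real.exp (ℓ * (2 * (A + τ) + r + ε)) * Nx t ^ 2 := by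
      intro w hw
      unfold G
      have e2 : (1 / 2 + w - t * I : ℂ) = (starRingEnd ℂ) (1 / 2 + (starRingEnd ℂ) w + t * I) := by
        apply Complex.ext <;> simp <;> ring
      rw [norm_mul, e2, xi_conj, Complex.norm_conj]
      have a1 := hcircle w hw.le
      have a2 := hcircle ((starRingEnd ℂ) w) (by rw [Complex.norm_conj]; exact hw.le)
      have a3 := mul_le_mul a1 a2 (norm_nonneg _) (by positivity)
      refine a3.trans ?_
      have e : (Real.exp (C + lt * (r / 2)) * Nx t * Real.exp (ℓ * (A + τ + ε / 4))) *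
          (Real.exp (C + lt * (r / 2)) * Nx t * Real.exp (ℓ * (A + τ + ε / 4))) =
          Real.exp (2 * (C + lt * (r / 2)) + 2 * (ℓ * (A + τ + ε / 4))) * Nx t ^ 2 := by
        have e3 : Real.exp (2 * (C + lt * (r / 2)) + 2 * (ℓ * (A + τ + ε / 4))) =
            (Real.exp (C + lt * (r / 2)) * Real.exp (ℓ * (A + τ + ε / 4))) ^ 2 := by
          rw [← Real.exp_add, ← Real.exp_nat_mul]
          congr 1
          push_cast
          ring
        rw [e3]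
        ring
      rw [e]
      refine mul_le_mul_of_nonneg_right (Real.exp_le_exp.2 ?_) hNt2.le
      have h5 : lt * r ≤ (ℓ + 1) * r := mul_le_mul_of_nonneg_right hlt1 hr0.le
      have h6 : 2 * (C + lt * (r / 2)) + 2 * (ℓ * (A + τ + ε / 4)) =
          lt * r + 2 * C + ℓ * (2 * (A + τ)) + ε / 2 * ℓ := by ring
      have h7 : ℓ * (2 * (A + τ) + r + ε) = (ℓ + 1) * r - r + ℓ * (2 * (A + τ)) + ε / 2 * ℓ + ε / 2 * ℓ := by ring
      rw [h6, h7]
      linarith only [h5, hℓ6, hrB, hB1]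
    have htc := tc_le (G_diff t) hr0 k1 (2 * m)
    exact (Complex.abs_re_le_norm _).trans htc
  have hzero : xi (1 / 2 + b + t * I) = 0 := by
    have e : (1 / 2 + (b : ℂ) + t * I) = z := by
      apply Complex.ext
      · simp [hb]
      · simp [ht]
    rw [e, xi_eq (by linarith), (Zt_zero_iff (by linarith)).2 hz, zero_mul]
  have hbig := hXe ℓ hℓ5
  refine core_num (x := t) (b := b) (R := R) (R2 := R2) (r := r) (ℓ := ℓ) (N := Nx t ^ 2) (μ' := 4 * s)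
    (h := 2 * (A + τ) + r + ε) (κ' := κ + τ) (ε := ε) (by linarith) (by linarith) ?_ hR0 hr0 hrR2 hNt2 hℓ0
    (by linarith) (by linarith) (fun m hm => ?_) hhead V1 V2 (by linarith) (by linarith) hbig ?_ hzero
  · rw [← hR2e, mul_comm]
    exact mul_le_mul_of_nonneg_right (by linarith) hR20.le
  · exact hLag t (by linarith) m (by rw [← hℓ]; exact hm)
  · have : 0 ≤ (κ + τ) * ℓ := by positivity
    linarith

end Pool.Agent.Helper85.LQ
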