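import Pool.Agent.Helper59.LQ.ZG
import Pool.Agent.Helper85.LQ.Line
import Pool.Agent.Helper75.LQ.Lin

/-!
The size of xi in the plane, with the exponent of zeta on the critical line.
-/

set_option autoImplicit false
set_option maxHeartbeats 1000000

open Complex Filter Topology Set
open Pool.Agent.H306R2 (Zt Zt_differentiableAt zeta_eq_pos)

namespace Pool.Agent.Helper85.LQ

open Pool.Agent.Helper75.LQ Pool.Agent.Helper85.LG Pool.Agent.Helper75.JE Pool.Agent.Helper59.LQ

/-- the main estimate in the right half plane, with an absolute constant -/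
theorem xi_fine : ∃ C : ℝ, 1 ≤ C ∧ ∀ A : ℝ, 0 ≤ A → A ≤ 1 / 2 → UpA A → ∀ ε : ℝ, 0 < ε → ∃ X : ℝ, 3 ≤ X ∧
    ∀ x : ℝ, X ≤ x → ∀ w : ℂ, 0 ≤ w.re →
    ‖xi (1 / 2 + w + x * I)‖ ≤ Nx x * Real.exp (Real.log x * (A + ε + w.re / 2) + C * |w.im| +
      C * (w.re * (1 + Real.log (2 + w.re)))) := by
  obtain ⟨CV, hCV0, hV⟩ := Pg_vert
  obtain ⟨CH, hCH0, hH⟩ := Pg_hor
  refine ⟨CV + CH + 5, by linarith, fun A hA0 hA1 hU ε hε => ?_⟩
  obtain ⟨e, he⟩ : ∃ e : ℝ, e = min (ε / 2) (1 / 2) := ⟨_, rfl⟩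
  have he0 : 0 < e := by rw [he]; positivity
  have he1 : e ≤ ε / 2 := by rw [he]; exact min_le_left _ _
  have he2 : e ≤ 1 / 2 := by rw [he]; exact min_le_right _ _
  obtain ⟨D, hD0, hD⟩ := zt_line hA0 hU he0
  obtain ⟨B, hB1, hB⟩ := zeta_two_sided (σ := 2) (by norm_num)
  obtain ⟨X1, hX1⟩ := eventually_atTop.1
    ((tendsto_rpow_atTop (show 0 < ε / 2 by positivity)).eventually_ge_atTop ((D + B) * Real.exp 6))
  refine ⟨max X1 3, le_max_right _ _, fun x hx w hw => ?_⟩
  have hxX := hX1 x ((le_max_left _ _).trans hx)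
  have hx3 : 3 ≤ x := (le_max_right _ _).trans hx
  obtain ⟨σ, hσ⟩ : ∃ σ : ℝ, σ = w.re := ⟨_, rfl⟩
  obtain ⟨s, hs⟩ : ∃ s : ℝ, s = w.im := ⟨_, rfl⟩
  rw [← hσ, ← hs]
  rw [← hσ] at hw
  have hx0 : 0 < x := by linarith
  have hx1 : 1 ≤ x := by linarith
  have ez : (1 / 2 + w + x * I : ℂ) = ((1 / 2 + σ : ℝ) : ℂ) + ((x + s : ℝ) : ℂ) * I := by
    apply Complex.ext
    · simp [hσ]
    · simp [hs]; ring
  have ex : (((1 / 2 : ℝ) : ℂ) + (x : ℂ) * I) = 1 / 2 + x * I := by push_cast; ring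
  obtain ⟨z, hz⟩ : ∃ z : ℂ, z = ((1 / 2 + σ : ℝ) : ℂ) + ((x + s : ℝ) : ℂ) * I := ⟨_, rfl⟩
  have hre : z.re = 1 / 2 + σ := by simp [hz]
  have him : z.im = x + s := by simp [hz]
  rw [ez, ← hz, xi_eq (by rw [hre]; linarith), norm_mul]
  have hsx : 0 ≤ |s| := abs_nonneg s
  have hab : |x + s| ≤ x + |s| := (abs_add_le _ _).trans (by rw [abs_of_nonneg hx0.le])
  have nz1 : ‖z + 1‖ ≤ x * Real.exp (3 + σ + |s|) := by
    have h1 := Complex.norm_le_abs_re_add_abs_im (z + 1)
    rw [add_re, add_im, hre, him, one_re, one_im, add_zero, abs_of_nonneg (by linarith : 0 ≤ 1 / 2 + σ + 1)] at h1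
    have h3 := Real.add_one_le_exp (3 + σ + |s|)
    have h4 : x * (3 + σ + |s| + 1) ≤ x * Real.exp (3 + σ + |s|) := mul_le_mul_of_nonneg_left h3 hx0.le
    nlinarith
  have nz2 : ‖z - 1‖ ≤ x * Real.exp (3 + σ + |s|) := by
    have h1 := Complex.norm_le_abs_re_add_abs_im (z - 1)
    rw [sub_re, sub_im, hre, him, one_re, one_im, sub_zero] at h1
    have h2 : |1 / 2 + σ - 1| ≤ 1 / 2 + σ := by rw [abs_le]; constructor <;> linarith
    have h3 := Real.add_one_le_exp (3 + σ + |s|)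
    have h4 : x * (3 + σ + |s| + 1) ≤ x * Real.exp (3 + σ + |s|) := mul_le_mul_of_nonneg_left h3 hx0.le
    nlinarith
  have hexp1 : 1 ≤ Real.exp (3 + σ + |s|) := Real.one_le_exp (by linarith)
  have n2 : ‖Zt z‖ ≤ (D + B) * (x ^ (1 + A + e) * Real.exp (6 + 2 * σ + 2 * |s|)) := by
    have hsq : Real.exp (3 + σ + |s|) ^ (2 : ℝ) = Real.exp (6 + 2 * σ + 2 * |s|) := by
      rw [← Real.exp_mul]
      congr 1
      ring
    rcases le_total (1 / 2 + σ) 2 with h2 | h2
    · have h1 := hD z (by rw [hre]; linarith) (by rw [hre]; exact h2)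
      refine h1.trans ?_
      have h3 : ‖z + 1‖ ^ (1 + A + e) ≤ x ^ (1 + A + e) * Real.exp (6 + 2 * σ + 2 * |s|) := by
        calc ‖z + 1‖ ^ (1 + A + e) ≤ (x * Real.exp (3 + σ + |s|)) ^ (1 + A + e) :=
              Real.rpow_le_rpow (norm_nonneg _) nz1 (by linarith)
          _ = x ^ (1 + A + e) * Real.exp (3 + σ + |s|) ^ (1 + A + e) :=
              Real.mul_rpow hx0.le (Real.exp_pos _).le
          _ ≤ x ^ (1 + A + e) * Real.exp (3 + σ + |s|) ^ (2 : ℝ) := by
              refine mul_le_mul_of_nonneg_left ?_ (by positivity)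
              exact Real.rpow_le_rpow_of_exponent_le hexp1 (by linarith)
          _ = _ := by rw [hsq]
      refine mul_le_mul (by linarith) h3 (by positivity) (by linarith)
    · have hne : z ≠ 1 := by
        intro h
        rw [h, one_re] at hre
        linarith
      rw [← zeta_eq_pos (by rw [hre]; linarith) hne, norm_mul]
      have h1 := (hB z (by rw [hre]; exact h2)).1
      have h3 : x * Real.exp (3 + σ + |s|) ≤ x ^ (1 + A + e) * Real.exp (6 + 2 * σ + 2 * |s|) := by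
        refine mul_le_mul ?_ (Real.exp_le_exp.2 (by linarith)) (Real.exp_pos _).le (by positivity)
        calc x = x ^ (1 : ℝ) := (Real.rpow_one x).symm
          _ ≤ _ := Real.rpow_le_rpow_of_exponent_le hx1 (by linarith)
      calc ‖z - 1‖ * ‖riemannZeta z‖ ≤ (x ^ (1 + A + e) * Real.exp (6 + 2 * σ + 2 * |s|)) * B :=
            mul_le_mul (nz2.trans h3) h1 (norm_nonneg _) (by positivity)
        _ = B * (x ^ (1 + A + e) * Real.exp (6 + 2 * σ + 2 * |s|)) := by ring
        _ ≤ _ := mul_le_mul_of_nonneg_right (by linarith) (by positivity)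
  have h1 := (hH x (1 / 2) (1 / 2 + σ) (by linarith) (by norm_num) (by linarith)).1
  have v1 := hV (1 / 2 + σ) (by linarith) (x + s) x
  have e1 : x + s - x = s := by ring
  have e2 : 1 / 2 + σ - 1 / 2 = σ := by ring
  rw [e1] at v1
  rw [e2, ex] at h1
  have hl : Real.log (x + (1 / 2 + σ)) ≤ Real.log x + Real.log (2 + σ) := by
    rw [← Real.log_mul hx0.ne' (by linarith)]
    exact Real.log_le_log (by linarith) (by nlinarith)
  have p0 : 0 < ‖Pg (1 / 2 + x * I)‖ := norm_pos_iff.2 (Pg_ne (by simp))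
  have n3 : ‖Pg z‖ ≤ Real.exp (CV * |s| + σ / 2 * (CH + (Real.log x + Real.log (2 + σ)))) * ‖Pg (1 / 2 + x * I)‖ := by
    rw [hz]
    refine v1.trans ((mul_le_mul_of_nonneg_left h1 (Real.exp_pos _).le).trans ?_)
    rw [← mul_assoc, ← Real.exp_add]
    apply mul_le_mul_of_nonneg_right _ p0.le
    apply Real.exp_le_exp.2
    have : σ / 2 * (CH + Real.log (x + (1 / 2 + σ))) ≤ σ / 2 * (CH + (Real.log x + Real.log (2 + σ))) :=
      mul_le_mul_of_nonneg_left (by linarith) (by linarith)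
    linarith
  have hl2 : 0 ≤ Real.log (2 + σ) := Real.log_nonneg (by linarith)
  have hx6 : (D + B) * Real.exp 6 ≤ Real.exp (Real.log x * (ε / 2)) := by
    rw [Real.rpow_def_of_pos hx0] at hxX
    exact hxX
  have hxr : x ^ (1 + A + e) = x * Real.exp (Real.log x * (A + e)) := by
    rw [show 1 + A + e = (A + e) + 1 by ring, Real.rpow_add_one hx0.ne', Real.rpow_def_of_pos hx0, mul_comm]
  calc ‖Zt z‖ * ‖Pg z‖ ≤ ((D + B) * (x ^ (1 + A + e) * Real.exp (6 + 2 * σ + 2 * |s|))) *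
        (Real.exp (CV * |s| + σ / 2 * (CH + (Real.log x + Real.log (2 + σ)))) * ‖Pg (1 / 2 + x * I)‖) :=
        mul_le_mul n2 n3 (norm_nonneg _) (by positivity)
    _ = Nx x * (((D + B) * Real.exp 6) * (Real.exp (Real.log x * (A + e)) * (Real.exp (2 * σ + 2 * |s|) *
        Real.exp (CV * |s| + σ / 2 * (CH + (Real.log x + Real.log (2 + σ))))))) := by
        rw [hxr, show 6 + 2 * σ + 2 * |s| = 6 + (2 * σ + 2 * |s|) by ring, Real.exp_add 6]
        unfold Nx
        ring
    _ ≤ Nx x * (Real.exp (Real.log x * (ε / 2)) * (Real.exp (Real.log x * (A + e)) * (Real.exp (2 * σ + 2 * |s|) *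
        Real.exp (CV * |s| + σ / 2 * (CH + (Real.log x + Real.log (2 + σ))))))) := by
        refine mul_le_mul_of_nonneg_left ?_ (by unfold Nx; positivity)
        exact mul_le_mul_of_nonneg_right hx6 (by positivity)
    _ ≤ _ := by
        refine mul_le_mul_of_nonneg_left ?_ (by unfold Nx; positivity)
        rw [← Real.exp_add, ← Real.exp_add, ← Real.exp_add]
        apply Real.exp_le_exp.2
        have hlx : 0 ≤ Real.log x := Real.log_nonneg hx1
        have i1 : Real.log x * e ≤ Real.log x * (ε / 2) := mul_le_mul_of_nonneg_left he1 hlx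
        have i2 : 0 ≤ CH * |s| := by positivity
        have i3 : 0 ≤ CV * (σ * (1 + Real.log (2 + σ))) := by positivity
        have i4 : 0 ≤ σ * Real.log (2 + σ) := by positivity
        have i5 : 0 ≤ CH * (σ * Real.log (2 + σ)) := by positivity
        have i6 : 0 ≤ CH * σ := by positivity
        nlinarith

/-- **L5** -/
theorem st_L5 : St_L5 := by
  obtain ⟨C, hC1, hC⟩ := xi_fine
  refine ⟨4 * C, by linarith, fun A hA0 hA1 hU ε hε => ?_⟩
  obtain ⟨X, hX3, hX⟩ := hC A hA0 hA1 hU ε hε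
  refine ⟨X, fun x hx w => ?_⟩
  have hx3 : 3 ≤ x := hX3.trans hx
  have main : ∀ w : ℂ, 0 ≤ w.re → ‖xi (1 / 2 + w + x * I)‖ ≤
      Nx x * Real.exp (Real.log x * (A + ε + |w.re| / 2) + 4 * C * ‖w‖ * Real.sqrt (1 + ‖w‖)) := by
    intro w hw
    refine (hX x hx w hw).trans ?_
    have hN : 0 ≤ Nx x := by
      unfold Nx
      have : 0 ≤ x := by linarith
      positivity
    refine mul_le_mul_of_nonneg_left ?_ hN
    apply Real.exp_le_exp.2
    rw [abs_of_nonneg hw]
    obtain ⟨ρ, hρ⟩ : ∃ ρ : ℝ, ρ = ‖w‖ := ⟨_, rfl⟩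
    have hρ0 : 0 ≤ ρ := by rw [hρ]; exact norm_nonneg w
    have h1 : |w.im| ≤ ρ := by rw [hρ]; exact Complex.abs_im_le_norm w
    have h2 : w.re ≤ ρ := by rw [hρ]; exact (le_abs_self _).trans (Complex.abs_re_le_norm w)
    rw [← hρ]
    obtain ⟨q, hq⟩ : ∃ q : ℝ, q = Real.sqrt (1 + ρ) := ⟨_, rfl⟩
    have hq2 : q ^ 2 = 1 + ρ := by rw [hq, Real.sq_sqrt (by linarith)]
    have hq1 : 1 ≤ q := by rw [hq]; exact Real.one_le_sqrt.2 (by linarith)
    rw [← hq]
    have h3 : Real.log (2 + w.re) ≤ 2 * q := by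
      have h4 : Real.log (2 + w.re) ≤ Real.log (2 * q ^ 2) :=
        Real.log_le_log (by linarith) (by rw [hq2]; linarith)
      have h5 : Real.log (2 * q ^ 2) = Real.log 2 + 2 * Real.log q := by
        rw [Real.log_mul (by norm_num) (by positivity), Real.log_pow]
        push_cast
        ring
      have h6 := Real.log_le_sub_one_of_pos (show 0 < q by linarith)
      have h7 := Real.log_two_lt_d9
      linarith
    have h8 : w.re * (1 + Real.log (2 + w.re)) ≤ ρ * (3 * q) := by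
      refine mul_le_mul h2 (by linarith) ?_ hρ0
      have : 0 ≤ Real.log (2 + w.re) := Real.log_nonneg (by linarith)
      linarith
    have h9 : C * (w.re * (1 + Real.log (2 + w.re))) ≤ C * (ρ * (3 * q)) :=
      mul_le_mul_of_nonneg_left h8 (by linarith)
    have h10 : C * |w.im| ≤ C * (ρ * q) := by
      refine mul_le_mul_of_nonneg_left ?_ (by linarith)
      nlinarith
    nlinarith
  rcases le_total 0 w.re with h | h
  · exact main w h
  · rw [xi_sym]
    have h1 := main (-(starRingEnd ℂ) w) (by simp; linarith)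
    rw [norm_neg, Complex.norm_conj] at h1
    have e : |(-(starRingEnd ℂ) w).re| = |w.re| := by simp
    rw [e] at h1
    exact h1

end Pool.Agent.Helper85.LQ
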