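import Pool.Agent.Helper85.LQ.LinCore
import Pool.Agent.Helper68.LQ.Z3
import Pool.Agent.Helper85.LQ.Z8

/-!
The packages L0, L1, L2 of the linear law.
-/

set_option autoImplicit false
set_option maxHeartbeats 1000000

open Complex Filter Topology Set
open Pool.Agent.H306R2 (Zt Zt_differentiableAt zeta_eq_pos)

namespace Pool.Agent.Helper85.LQ

open Pool.Agent.Helper75.LQ Pool.Agent.Helper85.LG Pool.Agent.Helper75.JE

/-- **L0** -/
theorem st_L0 : St_L0 := by
  intro θ c hF hc0 hc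
  obtain ⟨T0, hT0⟩ := hF
  obtain ⟨y0, hy0⟩ : ∃ y0 : ℝ, y0 = (max (θ - 1 / 2) 0 + 2 * c) / 2 := ⟨_, rfl⟩
  have h1 : max (θ - 1 / 2) 0 < 2 * c := max_lt (by linarith) (by linarith)
  have h2 : θ - 1 / 2 ≤ max (θ - 1 / 2) 0 := le_max_left _ _
  have h3 : 0 ≤ max (θ - 1 / 2) 0 := le_max_right _ _
  have hreg : Reg y0 := Pool.Agent.Helper68.JE.reg_few hT0 (by linarith) (by linarith)
  exact pos_log (by linarith) hreg (by linarith)

/-- head bound from the line `Re s = 1/2 + r` -/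
theorem head_of {A r : ℝ} (hr : 0 < r) (hr1 : r ≤ 1 / 2) (hA0 : 0 ≤ A) (hA1 : A ≤ 1 / 2)
    (hD : ∀ ε : ℝ, 0 < ε → ∃ D : ℝ, 0 ≤ D ∧
      ∀ t : ℝ, ‖Zt (((1 / 2 + r : ℝ) : ℂ) + t * I)‖ ≤ D * (2 + |t|) ^ (1 + A + ε)) {ε : ℝ} (hε : 0 < ε) :
    ∃ K : ℝ, 0 ≤ K ∧ ∀ (x : ℝ) (m : ℕ), 1 ≤ x →
      |Lm x m| ≤ K * x ^ (2 + (2 * A + r) + ε) * ‖Pg (1 / 2 + x * I)‖ ^ 2 / r ^ (2 * m) := by
  obtain ⟨e, he⟩ : ∃ e : ℝ, e = min (ε / 2) (1 / 2) := ⟨_, rfl⟩
  have he0 : 0 < e := by rw [he]; positivity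
  have he1 : e ≤ ε / 2 := by rw [he]; exact min_le_left _ _
  have he2 : e ≤ 1 / 2 := by rw [he]; exact min_le_right _ _
  obtain ⟨D, hD0, hD1⟩ := hD e he0
  obtain ⟨K, hK0, hK⟩ := lm_line hr hr1 (k := 1 + A + e) (by linarith) (by linarith) hD0 hD1
  refine ⟨K, hK0, fun x m hx => (hK x m hx).trans ?_⟩
  have h1 : x ^ (2 * (1 + A + e) + r) ≤ x ^ (2 + (2 * A + r) + ε) :=
    Real.rpow_le_rpow_of_exponent_le hx (by linarith)
  gcongr

lemma few_of_core {B τ : ℝ} {S : Set ℝ} (hS : S = {b : ℝ | 0 ≤ b ∧ Few (1 / 2 + b)}) (hB : B = sInf S)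
    (hτ0 : 0 < τ) (hτB : τ ≤ B) (hF : Few (1 / 2 + B - τ)) : False := by
  have hbdd : BddBelow S := ⟨0, fun b hb => by rw [hS] at hb; exact hb.1⟩
  have : B ≤ B - τ := by
    conv_lhs => rw [hB]
    refine csInf_le hbdd ?_
    rw [hS]
    refine ⟨by linarith, ?_⟩
    have e : 1 / 2 + (B - τ) = 1 / 2 + B - τ := by ring
    rw [e]
    exact hF
  linarith

/-- **L1** -/
theorem st_L1 : St_L1 := by
  intro θ hθ hθ1 hG hL ε hε
  obtain ⟨S, hS⟩ : ∃ S : Set ℝ, S = {b : ℝ | 0 ≤ b ∧ Few (1 / 2 + b)} := ⟨_, rfl⟩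
  have hSne : (1 / 2 : ℝ) ∈ S := by
    rw [hS]
    refine ⟨by norm_num, ?_⟩
    have : (1 / 2 + 1 / 2 : ℝ) = 1 := by norm_num
    rw [this]
    exact few_one
  have hbdd : BddBelow S := ⟨0, fun b hb => by rw [hS] at hb; exact hb.1⟩
  obtain ⟨B, hB⟩ : ∃ B : ℝ, B = sInf S := ⟨_, rfl⟩
  have hB0 : 0 ≤ B := by rw [hB]; exact le_csInf ⟨_, hSne⟩ fun b hb => by rw [hS] at hb; exact hb.1
  have hB1 : B ≤ 1 / 2 := by rw [hB]; exact csInf_le hbdd hSne
  have hF : ∀ ε > 0, Few (1 / 2 + B + ε) := by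
    intro ε hε
    obtain ⟨b, hb, hbB⟩ := exists_lt_of_csInf_lt ⟨_, hSne⟩ (show sInf S < B + ε by rw [← hB]; linarith)
    rw [hS] at hb
    exact hb.2.mono (by linarith)
  obtain ⟨b0, hb0⟩ : ∃ b0 : ℝ, b0 = θ - 1 / 2 := ⟨_, rfl⟩
  rcases le_or_gt B b0 with hBA | hBA
  · exact (hF ε hε).mono (by linarith)
  exfalso
  have hb00 : 0 ≤ b0 := by linarith
  obtain ⟨r, hr⟩ : ∃ r : ℝ, r = (b0 + B) / 2 := ⟨_, rfl⟩
  have hr0 : 0 < r := by linarith
  have hrb : b0 < r := by linarith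
  have hrB : r < B := by linarith
  have hD : ∀ ε : ℝ, 0 < ε → ∃ D : ℝ, 0 ≤ D ∧
      ∀ t : ℝ, ‖Zt (((1 / 2 + r : ℝ) : ℂ) + t * I)‖ ≤ D * (2 + |t|) ^ (1 + 0 + ε) := by
    intro ε hε
    obtain ⟨C, hC⟩ := hG (1 / 2 + r) (by linarith) ε hε
    have hpos : ∀ t : ℝ, 0 ≤ t → ‖Zt (((1 / 2 + r : ℝ) : ℂ) + t * I)‖ ≤ (2 * |C| + 48) * (2 + |t|) ^ (1 + 0 + ε) := by
      intro t ht
      rw [abs_of_nonneg ht]
      have hbase : 1 ≤ (2 + t) ^ (1 + 0 + ε) := Real.one_le_rpow (by linarith) (by linarith)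
      have hre : (((1 / 2 + r : ℝ) : ℂ) + t * I).re = 1 / 2 + r := by simp
      have him : (((1 / 2 + r : ℝ) : ℂ) + t * I).im = t := by simp
      rcases le_or_gt 1 t with h1 | h1
      · have hne : (((1 / 2 + r : ℝ) : ℂ) + t * I) ≠ 1 := by
          intro h
          rw [h, one_im] at him
          linarith
        rw [← zeta_eq_pos (by rw [hre]; linarith) hne, norm_mul]
        have h2 := hC (((1 / 2 + r : ℝ) : ℂ) + t * I) (by rw [hre]) (by rw [him]; exact h1)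
        rw [him] at h2
        have h3 : ‖(((1 / 2 + r : ℝ) : ℂ) + t * I) - 1‖ ≤ 2 + t := by
          refine (Complex.norm_le_abs_re_add_abs_im _).trans ?_
          rw [sub_re, sub_im, hre, him, one_re, one_im, sub_zero, abs_of_pos (by linarith : 0 < t)]
          have : |1 / 2 + r - 1| ≤ 1 := by rw [abs_le]; constructor <;> linarith
          linarith
        calc ‖(((1 / 2 + r : ℝ) : ℂ) + t * I) - 1‖ * ‖riemannZeta (((1 / 2 + r : ℝ) : ℂ) + t * I)‖
            ≤ (2 + t) * (|C| * (2 + t) ^ ε) := by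
              refine mul_le_mul h3 (h2.trans ?_) (norm_nonneg _) (by linarith)
              refine mul_le_mul (le_abs_self _) ?_ (by positivity) (abs_nonneg _)
              exact Real.rpow_le_rpow (by linarith) (by linarith) hε.le
          _ = |C| * (2 + t) ^ (1 + 0 + ε) := by
              rw [show 1 + 0 + ε = ε + 1 by ring, Real.rpow_add_one (by linarith : (2 + t : ℝ) ≠ 0)]
              ring
          _ ≤ _ := by
              refine mul_le_mul_of_nonneg_right ?_ (by positivity)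
              have := abs_nonneg C
              linarith
      · have h2 := Pool.Agent.H306R2.Zt_norm_le (s := (((1 / 2 + r : ℝ) : ℂ) + t * I)) (by rw [hre]; linarith)
        have h3 : ‖(((1 / 2 + r : ℝ) : ℂ) + t * I)‖ ≤ 2 := by
          refine (Complex.norm_le_abs_re_add_abs_im _).trans ?_
          rw [hre, him, abs_of_nonneg ht, abs_of_pos (by linarith)]
          linarith
        calc ‖Zt (((1 / 2 + r : ℝ) : ℂ) + t * I)‖ ≤ 3 * (‖(((1 / 2 + r : ℝ) : ℂ) + t * I)‖ + 1) ^ 2 := h2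
          _ ≤ 3 * (2 + 1) ^ 2 := by gcongr
          _ ≤ 48 * 1 := by norm_num
          _ ≤ _ := by
              refine mul_le_mul ?_ hbase (by norm_num) (by positivity)
              have := abs_nonneg C
              linarith
    refine ⟨2 * |C| + 48, by positivity, fun t => ?_⟩
    rcases le_total 0 t with ht | ht
    · exact hpos t ht
    · have h1 := hpos (-t) (by linarith)
      rw [abs_neg] at h1
      have e : ‖Zt (((1 / 2 + r : ℝ) : ℂ) + t * I)‖ = ‖Zt (((1 / 2 + r : ℝ) : ℂ) + ((-t : ℝ) : ℂ) * I)‖ := by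
        by_cases h0 : t = 0
        · rw [h0]; simp
        have hne : (((1 / 2 + r : ℝ) : ℂ) + t * I) ≠ 1 := by
          intro h
          have := congrArg Complex.im h
          simp at this
          exact h0 this
        have hne' : (((1 / 2 + r : ℝ) : ℂ) + ((-t : ℝ) : ℂ) * I) ≠ 1 := by
          intro h
          have := congrArg Complex.im h
          simp at this
          exact h0 this
        have hc : (((1 / 2 + r : ℝ) : ℂ) + ((-t : ℝ) : ℂ) * I) = (starRingEnd ℂ) (((1 / 2 + r : ℝ) : ℂ) + t * I) := by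
          apply Complex.ext <;> simp
        rw [← zeta_eq_pos (by simp; linarith) hne, ← zeta_eq_pos (by simp; linarith) hne', norm_mul, norm_mul, hc,
          zeta_conj']
        congr 1
        rw [show (starRingEnd ℂ) (((1 / 2 + r : ℝ) : ℂ) + t * I) - 1 =
          (starRingEnd ℂ) ((((1 / 2 + r : ℝ) : ℂ) + t * I) - 1) by rw [map_sub, map_one], Complex.norm_conj]
      rw [e]
      exact h1
  have hhead := fun (ε : ℝ) (hε : 0 < ε) => head_of (A := 0) hr0 (by linarith) le_rfl (by norm_num) hD hε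
  obtain ⟨τ, hτ0, hτB, hτ⟩ := lin_core Pool.Agent.Helper68.LQ.st_Z3 (H := 2 * 0 + r) (κ := b0 / 2) hr0 hrB.le hB1
    (by linarith) (by positivity) hhead (fun c hc => hL c (by rw [← hb0]; exact hc)) hF (by
      have h1 : Real.log (B / r) ≤ B / r - 1 := Real.log_le_sub_one_of_pos (div_pos (by linarith) hr0)
      have h2 : b0 * Real.log (B / r) ≤ b0 * (B / r - 1) := mul_le_mul_of_nonneg_left h1 hb00
      have h3 : b0 * (B / r - 1) < B - r := by
        have e : B / r - 1 = (B - r) / r := by field_simp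
        rw [e, ← mul_div_assoc, div_lt_iff₀ hr0]
        nlinarith [mul_pos (sub_pos.2 hrb) (sub_pos.2 hrB)]
      have h4 : 2 * 0 + r + 2 * (b0 / 2) * Real.log (B / r) = r + b0 * Real.log (B / r) := by ring
      rw [h4]
      linarith)
  exact few_of_core hS hB hτ0 hτB hτ

/-- **L2** -/
theorem st_L2 : St_L2 := by
  intro A κ r b hA0 hA1 hκ hr hrb hb hU hL hF hlt
  have hD : ∀ ε : ℝ, 0 < ε → ∃ D : ℝ, 0 ≤ D ∧
      ∀ t : ℝ, ‖Zt (((1 / 2 + r : ℝ) : ℂ) + t * I)‖ ≤ D * (2 + |t|) ^ (1 + A + ε) := by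
    intro ε hε
    obtain ⟨D, hD0, hD⟩ := zt_line hA0 hU hε
    refine ⟨D, hD0, fun t => (hD _ (by simp; linarith) (by simp; linarith)).trans ?_⟩
    refine mul_le_mul_of_nonneg_left ?_ hD0
    refine Real.rpow_le_rpow (norm_nonneg _) ?_ (by linarith)
    refine (Complex.norm_le_abs_re_add_abs_im _).trans ?_
    have e1 : ((((1 / 2 + r : ℝ) : ℂ) + t * I) + 1).re = 3 / 2 + r := by
      simp
      ring
    have e2 : ((((1 / 2 + r : ℝ) : ℂ) + t * I) + 1).im = t := by simp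
    rw [e1, e2, abs_of_pos (by linarith)]
    linarith
  have hhead := fun (ε : ℝ) (hε : 0 < ε) => head_of (A := A) hr (by linarith) hA0 hA1 hD hε
  obtain ⟨τ, hτ0, hτB, hτ⟩ := lin_core Pool.Agent.Helper68.LQ.st_Z3 (H := 2 * A + r) (κ := κ) hr hrb hb
    (by linarith) hκ hhead hL (fun ε hε => by
      have := hF ε hε
      rwa [← add_assoc] at this) hlt
  refine ⟨b - τ, by linarith, ?_⟩
  have e : 1 / 2 + (b - τ) = 1 / 2 + b - τ := by ring
  rw [e]
  exact hτ

end Pool.Agent.Helper85.LQ
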