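import Pool.Agent.Helper85.LQ.Z2
import Pool.Agent.Helper75.LQ.Lin

/-!
Core of the converse direction of the linear law.
-/

set_option autoImplicit false
set_option maxHeartbeats 1000000

open Complex Filter Topology Set
open Pool.Agent.H306R2 (Zt Zt_differentiableAt zeta_eq_pos)

namespace Pool.Agent.Helper85.LQ

open Pool.Agent.Helper75.LQ Pool.Agent.Helper85.LG Pool.Agent.Helper75.JE

/-- bounds for the Laguerre coefficients, from the size of zeta on one line -/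
theorem lm_line {r k D : ℝ} (hr : 0 < r) (hr1 : r ≤ 1 / 2) (hk0 : 0 ≤ k) (hk2 : k ≤ 2) (hD0 : 0 ≤ D)
    (hD : ∀ t : ℝ, ‖Zt (((1 / 2 + r : ℝ) : ℂ) + t * I)‖ ≤ D * (2 + |t|) ^ k) :
    ∃ K : ℝ, 0 ≤ K ∧ ∀ (x : ℝ) (m : ℕ), 1 ≤ x →
    |Lm x m| ≤ K * x ^ (2 * k + r) * ‖Pg (1 / 2 + x * I)‖ ^ 2 / r ^ (2 * m) := by
  obtain ⟨C, hC0, hC⟩ := Pg_ratio
  refine ⟨10 ^ 6 * (D ^ 2 * 81 * Real.exp C), by positivity, fun x m hx => ?_⟩
  have hx0 : 0 < x := by linarith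
  set P0 := ‖Pg (1 / 2 + x * I)‖ with hP0
  set P := ‖Pg (((1 / 2 + r : ℝ) : ℂ) + x * I)‖ with hP
  have hPP : P ^ 2 ≤ Real.exp C * x ^ r * P0 ^ 2 := by
    have h1 := (hC x (1 / 2) (1 / 2 + r) hx le_rfl (by linarith) (by linarith)).1
    rw [show (1 / 2 + r - 1 / 2 : ℝ) = r by ring] at h1
    rw [hP, hP0]
    have e : (((1 / 2 : ℝ) : ℂ) + x * I) = 1 / 2 + x * I := by push_cast; ring
    rw [e] at h1
    exact h1
  have hb : ∀ u : ℝ, (2 + |x + u|) ^ k ≤ 9 * x ^ k * (1 + |u|) ^ 2 := by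
    intro u
    have h1 : 2 + |x + u| ≤ 3 * x * (1 + |u|) := by
      have := abs_add_le x u
      rw [abs_of_pos hx0] at this
      have := abs_nonneg u
      nlinarith
    have hv1 : 1 ≤ 1 + |u| := by linarith [abs_nonneg u]
    calc (2 + |x + u|) ^ k ≤ (3 * x * (1 + |u|)) ^ k := Real.rpow_le_rpow (by positivity) h1 hk0
      _ = 3 ^ k * x ^ k * (1 + |u|) ^ k := by
          rw [Real.mul_rpow (by positivity) (by positivity), Real.mul_rpow (by norm_num) hx0.le]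
      _ ≤ 3 ^ (2 : ℝ) * x ^ k * (1 + |u|) ^ (2 : ℝ) := by
          have h3 : (3 : ℝ) ^ k ≤ 3 ^ (2 : ℝ) := Real.rpow_le_rpow_of_exponent_le (by norm_num) hk2
          have h4 : (1 + |u|) ^ k ≤ (1 + |u|) ^ (2 : ℝ) := Real.rpow_le_rpow_of_exponent_le hv1 hk2
          gcongr
      _ = 9 * x ^ k * (1 + |u|) ^ 2 := by norm_num
  have hzt : ∀ u : ℝ, ‖Zt (((1 / 2 + r : ℝ) : ℂ) + ((x + u : ℝ) : ℂ) * I)‖ ≤ D * (9 * x ^ k * (1 + |u|) ^ 2) := by
    intro u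
    exact (hD _).trans (mul_le_mul_of_nonneg_left (hb u) hD0)
  have hline : ∀ v : ℝ, ‖G x ((r : ℂ) + v * I)‖ ≤ (D ^ 2 * 81 * x ^ (2 * k) * P ^ 2) * (1 + |v|) ^ 8 := by
    intro v
    unfold G
    have e1 : (1 / 2 + ((r : ℂ) + v * I) + x * I) = ((1 / 2 + r : ℝ) : ℂ) + ((x + v : ℝ) : ℂ) * I := by
      push_cast; ring
    have e2 : (1 / 2 + ((r : ℂ) + v * I) - x * I) =
        (starRingEnd ℂ) (((1 / 2 + r : ℝ) : ℂ) + ((x + -v : ℝ) : ℂ) * I) := by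
      apply Complex.ext <;> simp <;> ring
    rw [norm_mul, e1, e2, xi_conj, Complex.norm_conj, xi_eq (by simp; linarith), xi_eq (by simp; linarith),
      norm_mul, norm_mul]
    have z1 := hzt v
    have z2 := hzt (-v)
    rw [abs_neg] at z2
    have hg := Pg_tail (s := ((1 / 2 + r : ℝ) : ℂ) + x * I) (by simp; linarith) v
    have e3 : (((1 / 2 + r : ℝ) : ℂ) + x * I + v * I) = ((1 / 2 + r : ℝ) : ℂ) + ((x + v : ℝ) : ℂ) * I := by
      push_cast; ring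
    have e4 : (((1 / 2 + r : ℝ) : ℂ) + x * I - v * I) = ((1 / 2 + r : ℝ) : ℂ) + ((x + -v : ℝ) : ℂ) * I := by
      push_cast; ring
    rw [e3, e4, ← hP] at hg
    have hxx : x ^ k * x ^ k = x ^ (2 * k) := by
      rw [← Real.rpow_add hx0]; congr 1; ring
    have h4v : (1 + |v|) ^ 4 ≤ (1 + |v|) ^ 8 :=
      pow_le_pow_right₀ (by linarith [abs_nonneg v]) (by norm_num)
    calc ‖Zt (((1 / 2 + r : ℝ) : ℂ) + ((x + v : ℝ) : ℂ) * I)‖ * ‖Pg (((1 / 2 + r : ℝ) : ℂ) + ((x + v : ℝ) : ℂ) * I)‖ *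
          (‖Zt (((1 / 2 + r : ℝ) : ℂ) + ((x + -v : ℝ) : ℂ) * I)‖ *
            ‖Pg (((1 / 2 + r : ℝ) : ℂ) + ((x + -v : ℝ) : ℂ) * I)‖)
        = (‖Zt (((1 / 2 + r : ℝ) : ℂ) + ((x + v : ℝ) : ℂ) * I)‖ * ‖Zt (((1 / 2 + r : ℝ) : ℂ) + ((x + -v : ℝ) : ℂ) * I)‖) *
          (‖Pg (((1 / 2 + r : ℝ) : ℂ) + ((x + v : ℝ) : ℂ) * I)‖ *
            ‖Pg (((1 / 2 + r : ℝ) : ℂ) + ((x + -v : ℝ) : ℂ) * I)‖) := by ring
      _ ≤ ((D * (9 * x ^ k * (1 + |v|) ^ 2)) * (D * (9 * x ^ k * (1 + |v|) ^ 2))) * P ^ 2 := by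
          apply mul_le_mul _ hg (by positivity) (by positivity)
          exact mul_le_mul z1 z2 (norm_nonneg _) (by positivity)
      _ = D ^ 2 * 81 * (x ^ k * x ^ k) * P ^ 2 * (1 + |v|) ^ 4 := by ring
      _ ≤ D ^ 2 * 81 * (x ^ k * x ^ k) * P ^ 2 * (1 + |v|) ^ 8 :=
          mul_le_mul_of_nonneg_left h4v (by positivity)
      _ = _ := by rw [hxx]
  have hcirc := fun (w : ℂ) (hw : ‖w‖ = r) => strip_bd x hr (by linarith) hline hw
  have htc := tc_le (G_diff x) hr hcirc (2 * m)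
  refine (Complex.abs_re_le_norm _).trans (htc.trans ?_)
  refine div_le_div_of_nonneg_right ?_ (by positivity)
  have hxr : x ^ (2 * k + r) = x ^ (2 * k) * x ^ r := Real.rpow_add hx0 _ _
  calc 10 ^ 6 * (D ^ 2 * 81 * x ^ (2 * k) * P ^ 2) ≤
        10 ^ 6 * (D ^ 2 * 81 * x ^ (2 * k) * (Real.exp C * x ^ r * P0 ^ 2)) := by gcongr
    _ = _ := by rw [hxr]; ring

/-- the main step -/
theorem lin_core (h3 : St_Z3) {r B H κ : ℝ} (hr0 : 0 < r) (hrB : r ≤ B) (hB1 : B ≤ 1 / 2) (hH0 : 0 ≤ H)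
    (hκ0 : 0 ≤ κ)
    (hHead : ∀ ε : ℝ, 0 < ε → ∃ K : ℝ, 0 ≤ K ∧ ∀ (x : ℝ) (m : ℕ), 1 ≤ x →
      |Lm x m| ≤ K * x ^ (2 + H + ε) * ‖Pg (1 / 2 + x * I)‖ ^ 2 / r ^ (2 * m))
    (hL : ∀ c > κ, LagC c) (hF : ∀ ε > 0, Few (1 / 2 + B + ε)) (hlt : H + 2 * κ * Real.log (B / r) < B) :
    ∃ τ > 0, τ ≤ B ∧ Few (1 / 2 + B - τ) := by
  have hB0 : 0 < B := by linarith
  have hlBr : 0 ≤ Real.log (B / r) := Real.log_nonneg (by rw [le_div_iff₀ hr0]; linarith)
  obtain ⟨g, hg⟩ : ∃ g : ℝ, g = B - (H + 2 * κ * Real.log (B / r)) := ⟨_, rfl⟩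
  have hg0 : 0 < g := by linarith
  have hgB : g ≤ B := by
    have : 0 ≤ 2 * κ * Real.log (B / r) := by positivity
    linarith
  obtain ⟨s, hs⟩ : ∃ s : ℝ, s = g * B / (96 * (κ + 1)) := ⟨_, rfl⟩
  have hs0 : 0 < s := by rw [hs]; positivity
  have hsg : s ≤ g / 96 := by
    rw [hs, div_le_div_iff₀ (by positivity) (by norm_num)]
    nlinarith [mul_pos hg0 hB0]
  have hsκ : 6 * κ * s / B ≤ g / 16 := by
    have e : 6 * κ * s / B = 6 * κ * g / (96 * (κ + 1)) := by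
      rw [hs]; field_simp
    rw [e, div_le_div_iff₀ (by positivity) (by norm_num)]
    nlinarith
  obtain ⟨ε, hε⟩ : ∃ ε : ℝ, ε = s / 8 := ⟨_, rfl⟩
  have hε0 : 0 < ε := by linarith
  obtain ⟨τ, hτ⟩ : ∃ τ : ℝ, τ = s / 4 := ⟨_, rfl⟩
  have hτ0 : 0 < τ := by linarith
  have hBτ : 0 < B - τ := by linarith
  obtain ⟨R, hR⟩ : ∃ R : ℝ, R = B + s := ⟨_, rfl⟩
  have hR0 : 0 < R := by linarith
  obtain ⟨R2, hR2⟩ : ∃ R2 : ℝ, R2 = R ^ 2 / (B - τ) := ⟨_, rfl⟩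
  have hR2e : R2 * (B - τ) = R ^ 2 := by rw [hR2]; field_simp
  have hR2le : R2 ≤ B + 3 * s := by
    rw [hR2, div_le_iff₀ hBτ, hR, hτ]
    nlinarith
  have hR2ge : R ≤ R2 := by
    rw [hR2, le_div_iff₀ hBτ, sq]
    exact mul_le_mul_of_nonneg_left (by linarith) hR0.le
  have hR20 : 0 < R2 := by linarith
  have hR21 : R2 ≤ 1 := by linarith
  have hrR2 : r ≤ R2 := by linarith
  obtain ⟨K, hK0, hK⟩ := hHead ε hε0
  obtain ⟨E1, X1, hE1, hX1, hV1⟩ := vals h3 (θ := 1 / 2 + B) (by linarith) hF (y := R) (by linarith) (by linarith) hε0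
  obtain ⟨E2, X2, hE2, hX2, hV2⟩ := vals h3 (θ := 1 / 2 + B) (by linarith) hF (y := R2) (by linarith) (by linarith) hε0
  have hl0 : 0 ≤ Real.log (R2 / r) := Real.log_nonneg (by rw [le_div_iff₀ hr0]; linarith)
  obtain ⟨t, ht⟩ : ∃ t : ℝ, t = (g / 32) / (Real.log (R2 / r) + 1) := ⟨_, rfl⟩
  have ht0 : 0 < t := by rw [ht]; positivity
  have htl : t * Real.log (R2 / r) ≤ g / 32 := by
    rw [ht, div_mul_eq_mul_div, div_le_iff₀ (by linarith)]
    nlinarith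
  obtain ⟨κ', hκ'⟩ : ∃ κ' : ℝ, κ' = κ + t := ⟨_, rfl⟩
  have hκ'0 : 0 < κ' := by linarith
  have hlogsplit : Real.log (R2 / r) ≤ Real.log (B / r) + 3 * s / B := by
    have e : R2 / r = (B / r) * (R2 / B) := by field_simp
    rw [e, Real.log_mul (by positivity) (by positivity)]
    have h1 : Real.log (R2 / B) ≤ R2 / B - 1 := Real.log_le_sub_one_of_pos (by positivity)
    have h2 : R2 / B - 1 ≤ 3 * s / B := by
      rw [div_sub_one hB0.ne', div_le_div_iff_of_pos_right hB0]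
      linarith
    linarith
  have hκ'l : 2 * κ' * Real.log (R2 / r) ≤ 2 * κ * Real.log (B / r) + g / 8 := by
    have h1 : 2 * κ * Real.log (R2 / r) ≤ 2 * κ * (Real.log (B / r) + 3 * s / B) :=
      mul_le_mul_of_nonneg_left hlogsplit (by positivity)
    have h2 : 2 * κ * (3 * s / B) = 6 * κ * s / B := by ring
    rw [hκ']
    nlinarith
  obtain ⟨X3, hX3⟩ := hL κ' (by linarith)
  obtain ⟨X4, hX4⟩ := hF τ hτ0
  obtain ⟨K1, hK1⟩ : ∃ K1 : ℝ, K1 = E1 * (E2 + 2 * K * (κ' / ε + 1)) := ⟨_, rfl⟩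
  have hK10 : 0 ≤ K1 := by rw [hK1]; positivity
  have main : ∀ (x b : ℝ), max (max X1 X2) (max X3 ((K1 + 1) ^ (1 / ε))) ≤ x → B - τ < b → b ≤ R2 →
      xi (1 / 2 + b + x * I) ≠ 0 := by
    intro x b hx hb1 hb2 hzero
    simp only [max_le_iff] at hx
    obtain ⟨⟨x1, x2⟩, x3, x4⟩ := hx
    have hx1 : 1 ≤ x := hX1.trans x1
    have hx0 : 0 < x := by linarith
    have hlx : 0 ≤ Real.log x := Real.log_nonneg hx1
    have hb0 : 0 < b := by linarith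
    have hRR : R ^ 2 ≤ b * R2 := by
      rw [← hR2e, mul_comm]
      exact mul_le_mul_of_nonneg_right hb1.le hR20.le
    obtain ⟨P0, hP0⟩ : ∃ P0 : ℝ, P0 = ‖Pg (1 / 2 + x * I)‖ ^ 2 := ⟨_, rfl⟩
    have hP0pos : 0 < P0 := by
      have := norm_pos_iff.2 (Pg_ne (s := 1 / 2 + x * I) (by simp))
      rw [hP0]
      positivity
    obtain ⟨μ, hμ⟩ : ∃ μ : ℝ, μ = x ^ (4 * s) := ⟨_, rfl⟩
    have hμ0 : 0 < μ := by rw [hμ]; exact Real.rpow_pos_of_pos hx0 _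
    have hμ1 : 1 ≤ μ := by rw [hμ]; exact Real.one_le_rpow hx1 (by linarith)
    -- the sum
    have S1 := (G_series x b).mul_left μ
    have S2 := (G_series x R2).mul_left μ⁻¹
    have S3 := (G_series x R).mul_left 2
    have S := (S1.add S2).sub S3
    rw [hzero, norm_zero] at S
    obtain ⟨w, hw⟩ : ∃ w : ℕ → ℝ, w = fun m => μ * b ^ (2 * m) + μ⁻¹ * R2 ^ (2 * m) - 2 * R ^ (2 * m) := ⟨_, rfl⟩
    have hw0 : ∀ m, 0 ≤ w m := by
      intro m
      have h1 : R ^ (2 * m) ≤ b ^ m * R2 ^ m := by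
        rw [pow_mul, ← mul_pow]
        exact pow_le_pow_left₀ (sq_nonneg _) hRR m
      have h2 : 2 * (b ^ m * R2 ^ m) ≤ μ * b ^ (2 * m) + μ⁻¹ * R2 ^ (2 * m) := by
        have e1 : b ^ (2 * m) = b ^ m * b ^ m := by rw [← pow_add]; congr 1; ring
        have e2 : R2 ^ (2 * m) = R2 ^ m * R2 ^ m := by rw [← pow_add]; congr 1; ring
        rw [e1, e2]
        have h3 : 0 ≤ μ⁻¹ * (μ * b ^ m - R2 ^ m) ^ 2 := by positivity
        have h4 : μ⁻¹ * (μ * b ^ m - R2 ^ m) ^ 2 =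
            μ * (b ^ m * b ^ m) + μ⁻¹ * (R2 ^ m * R2 ^ m) - 2 * (b ^ m * R2 ^ m) := by
          field_simp
          ring
        linarith
      simp only [hw]
      linarith
    have hS : HasSum (fun m => Lm x m * w m) (μ * 0 ^ 2 + μ⁻¹ * ‖xi (1 / 2 + R2 + x * I)‖ ^ 2 -
        2 * ‖xi (1 / 2 + R + x * I)‖ ^ 2) := by
      refine S.congr_fun ?_
      intro m
      simp only [hw]
      ring
    set M : ℕ := ⌈κ' * Real.log x⌉₊ with hM
    have hlow := sum_le_hasSum (Finset.range M) (fun m hm => by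
      rw [Finset.mem_range, not_lt] at hm
      have h1 : κ' * Real.log x ≤ m := (Nat.le_ceil _).trans (by exact_mod_cast hm)
      exact mul_nonneg (hX3 x x3 m h1) (hw0 m)) hS
    -- the head
    obtain ⟨Q, hQ⟩ : ∃ Q : ℝ, Q = 2 * K * x ^ ((2 + H + ε) + 4 * s + (2 * κ * Real.log (B / r) + g / 8)) * P0 :=
      ⟨_, rfl⟩
    have hQ0 : 0 ≤ Q := by rw [hQ]; positivity
    have hhead : ∀ m ∈ Finset.range M, -Q ≤ Lm x m * w m := by
      intro m hm
      rw [Finset.mem_range, hM, Nat.lt_ceil] at hm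
      have h1 := hK x m hx1
      rw [← hP0] at h1
      have hrp : 0 < r ^ (2 * m) := by positivity
      have hwle : w m ≤ 2 * μ * R2 ^ (2 * m) := by
        simp only [hw]
        have h5 : 0 ≤ 2 * R ^ (2 * m) := by positivity
        have h6 : b ^ (2 * m) ≤ R2 ^ (2 * m) := pow_le_pow_left₀ hb0.le hb2 _
        have h7 : 0 ≤ R2 ^ (2 * m) := by positivity
        have h8 : μ⁻¹ ≤ μ := (inv_le_one_of_one_le₀ hμ1).trans hμ1
        have h9 : μ * b ^ (2 * m) ≤ μ * R2 ^ (2 * m) := by gcongr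
        have h10 : μ⁻¹ * R2 ^ (2 * m) ≤ μ * R2 ^ (2 * m) := by gcongr
        linarith
      have hrm : R2 ^ (2 * m) / r ^ (2 * m) ≤ x ^ (2 * κ * Real.log (B / r) + g / 8) := by
        rw [← div_pow, ← Real.rpow_natCast, Real.rpow_def_of_pos (by positivity), Real.rpow_def_of_pos hx0]
        apply Real.exp_le_exp.2
        push_cast
        calc Real.log (R2 / r) * (2 * m) ≤ Real.log (R2 / r) * (2 * (κ' * Real.log x)) := by gcongr
          _ = (2 * κ' * Real.log (R2 / r)) * Real.log x := by ring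
          _ ≤ (2 * κ * Real.log (B / r) + g / 8) * Real.log x := by gcongr
          _ = _ := by ring
      have h2 : |Lm x m * w m| ≤ Q := by
        rw [abs_mul, abs_of_nonneg (hw0 m)]
        calc |Lm x m| * w m ≤ (K * x ^ (2 + H + ε) * P0 / r ^ (2 * m)) * (2 * μ * R2 ^ (2 * m)) :=
              mul_le_mul h1 hwle (hw0 m) (by positivity)
          _ = 2 * K * (x ^ (2 + H + ε) * μ) * P0 * (R2 ^ (2 * m) / r ^ (2 * m)) := by ring
          _ ≤ 2 * K * (x ^ (2 + H + ε) * μ) * P0 * x ^ (2 * κ * Real.log (B / r) + g / 8) := by gcongr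
          _ = 2 * K * (x ^ (2 + H + ε) * μ * x ^ (2 * κ * Real.log (B / r) + g / 8)) * P0 := by ring
          _ = Q := by rw [hμ, ← Real.rpow_add hx0, ← Real.rpow_add hx0, hQ]
      exact (abs_le.1 h2).1
    have hsumle := Finset.sum_le_sum hhead
    rw [Finset.sum_const, Finset.card_range, nsmul_eq_mul] at hsumle
    -- number of terms
    have hMle : (M : ℝ) ≤ (κ' / ε + 1) * x ^ ε := by
      have h1 : (M : ℝ) < κ' * Real.log x + 1 := Nat.ceil_lt_add_one (by positivity)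
      have h2 := Real.log_le_rpow_div hx0.le hε0
      have h3 : 1 ≤ x ^ ε := Real.one_le_rpow hx1 hε0.le
      have h4 : κ' * Real.log x ≤ κ' * (x ^ ε / ε) := by gcongr
      have h5 : κ' * (x ^ ε / ε) = κ' / ε * x ^ ε := by ring
      rw [h5] at h4
      linarith
    obtain ⟨v1, v2⟩ := hV1 x x1
    obtain ⟨v3, v4⟩ := hV2 x x2
    rw [← hP0] at v2 v3
    -- conclusion
    obtain ⟨Z, hZ⟩ : ∃ Z : ℝ, Z = x ^ (2 + R - 3 * ε) := ⟨_, rfl⟩
    have hZ0 : 0 < Z := by rw [hZ]; exact Real.rpow_pos_of_pos hx0 _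
    have hmono : ∀ e : ℝ, e ≤ 2 + R - 3 * ε → x ^ e ≤ Z := fun e he => by
      rw [hZ]; exact Real.rpow_le_rpow_of_exponent_le hx1 he
    have t1 : μ⁻¹ * ‖xi (1 / 2 + R2 + x * I)‖ ^ 2 ≤ E2 * Z * P0 := by
      have h1 : μ⁻¹ * x ^ (2 + R2 + 2 * ε) ≤ Z := by
        rw [hμ, ← Real.rpow_neg hx0.le, ← Real.rpow_add hx0]
        exact hmono _ (by linarith)
      calc μ⁻¹ * ‖xi (1 / 2 + R2 + x * I)‖ ^ 2 ≤ μ⁻¹ * (E2 * x ^ (2 + R2 + 2 * ε) * P0) :=
            mul_le_mul_of_nonneg_left v3 (by positivity)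
        _ = E2 * (μ⁻¹ * x ^ (2 + R2 + 2 * ε)) * P0 := by ring
        _ ≤ _ := by gcongr
    have t2 : (M : ℝ) * Q ≤ 2 * K * (κ' / ε + 1) * Z * P0 := by
      have h1 : x ^ ε * x ^ ((2 + H + ε) + 4 * s + (2 * κ * Real.log (B / r) + g / 8)) ≤ Z := by
        rw [← Real.rpow_add hx0]
        exact hmono _ (by linarith)
      calc (M : ℝ) * Q ≤ ((κ' / ε + 1) * x ^ ε) * Q := mul_le_mul_of_nonneg_right hMle hQ0
        _ = 2 * K * (κ' / ε + 1) * (x ^ ε * x ^ ((2 + H + ε) + 4 * s + (2 * κ * Real.log (B / r) + g / 8))) * P0 := by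
            rw [hQ]; ring
        _ ≤ _ := by gcongr
    have t3 : 2 * ‖xi (1 / 2 + R + x * I)‖ ^ 2 ≤ (E2 + 2 * K * (κ' / ε + 1)) * Z * P0 := by
      have e0 : μ * (0 : ℝ) ^ 2 = 0 := by ring
      rw [e0, zero_add] at hlow
      have h5 := hsumle.trans hlow
      nlinarith
    have t4 : x ^ (2 + R - 2 * ε) * P0 ≤ K1 * Z * P0 := by
      calc x ^ (2 + R - 2 * ε) * P0 ≤ E1 * ‖xi (1 / 2 + R + x * I)‖ ^ 2 := v2
        _ ≤ E1 * ((E2 + 2 * K * (κ' / ε + 1)) * Z * P0) := by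
            apply mul_le_mul_of_nonneg_left _ (by linarith)
            have : 0 ≤ ‖xi (1 / 2 + R + x * I)‖ ^ 2 := by positivity
            linarith
        _ = _ := by rw [hK1]; ring
    have t5 : x ^ (2 + R - 2 * ε) ≤ K1 * Z := le_of_mul_le_mul_right t4 hP0pos
    have t6 : x ^ (2 + R - 2 * ε) = x ^ ε * Z := by
      rw [hZ, ← Real.rpow_add hx0]; congr 1; ring
    rw [t6] at t5
    have t7 : x ^ ε ≤ K1 := le_of_mul_le_mul_right t5 hZ0
    have t8 : K1 + 1 ≤ x ^ ε := by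
      have h8 := Real.rpow_le_rpow (z := ε) (by positivity) x4 hε0.le
      rwa [← Real.rpow_mul (by positivity), one_div_mul_cancel (by positivity), Real.rpow_one] at h8
    linarith
  refine ⟨τ, hτ0, by linarith, max X4 (max (max X1 X2) (max X3 ((K1 + 1) ^ (1 / ε)))), fun s hs hT => ?_⟩
  by_contra hcon
  rw [not_le] at hcon
  have key : ∀ z : ℂ, riemannZeta z = 0 → max X4 (max (max X1 X2) (max X3 ((K1 + 1) ^ (1 / ε)))) ≤ z.im →
      1 / 2 + B - τ < z.re → False := by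
    intro z hz hT hcon
    have hz1 : z.re ≤ 1 / 2 + B + τ :=
      hX4 z hz (((le_max_left _ _).trans hT).trans (le_abs_self _))
    refine main z.im (z.re - 1 / 2) ((le_max_right _ _).trans hT) (by linarith) (by linarith) ?_
    have e : (1 / 2 + ((z.re - 1 / 2 : ℝ) : ℂ) + z.im * I) = z := by
      apply Complex.ext <;> simp
    rw [e, xi_eq (by linarith), (Zt_zero_iff (by linarith)).2 hz, zero_mul]
  rcases le_total 0 s.im with h0 | h0
  · rw [abs_of_nonneg h0] at hT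
    exact key s hs hT hcon
  · rw [abs_of_nonpos h0] at hT
    exact key ((starRingEnd ℂ) s) (by rw [riemannZeta_conj, hs, map_zero]) (by simpa using hT) (by simpa using hcon)

end Pool.Agent.Helper85.LQ
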