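import Pool.Agent.Helper85.DQ.XiLoc
import Pool.Agent.Helper85.LG.Pos
import Pool.Agent.Helper39.LG.RegZf

/-!
Regularity of `(s - 1) ζ(s)` at one height, from a zero-free box of bounded size.
-/

set_option autoImplicit false
set_option maxHeartbeats 4000000

open Complex Filter Topology Set Metric
open Pool.Agent.H306R2 (Zt)
open Pool.Agent.Helper85.LG (Lg RegAt Reg)

namespace Pool.Agent.Helper85.LQ

open Pool.Agent.Helper85.DQ
open Pool.Agent.Helper39.LG (ld_diff Zt_two conv_seg)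

/-- regularity at the height `x` from a zero-free box -/
theorem reg_loc {θ y0 : ℝ} (hθ'1 : 1 / 2 ≤ θ) (hy0 : 0 < y0) (hy : θ - 1 / 2 < y0) {ε : ℝ} (hε : 0 < ε) :
    ∃ H X : ℝ, 0 < H ∧ 0 < X ∧ ∀ x : ℝ, X ≤ x → FreeBox θ H x → ∀ y : ℝ, y0 ≤ y →
      RegAt ε y (1 / 2 + y + x * I) := by
  rcases lt_or_ge (1 / 2) y0 with h | h
  · obtain ⟨X, hX, hX'⟩ := Pool.Agent.Helper85.LG.reg_abs h ε hε
    exact ⟨1, X, one_pos, hX, fun x hx _ y hyy => hX' x y (by linarith) hyy (Or.inl hx)⟩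
  obtain ⟨σ, hσ⟩ : ∃ σ : ℝ, σ = 1 / 2 + y0 := ⟨_, rfl⟩
  have hθσ : θ < σ := by linarith
  obtain ⟨X1, hX1, hX1'⟩ := Pool.Agent.Helper85.LG.reg_abs (y0 := 1) (by norm_num) ε hε
  obtain ⟨B, hB1, hB⟩ := Pool.Agent.Helper85.LG.zeta_two_sided (σ := 2) (by norm_num)
  set l : ℝ := Real.log (5 / 4) with hl
  have hl0 : 0 < l := Real.log_pos (by norm_num)
  set κ : ℝ := ε * y0 * l / 4 with hκ
  have hκ0 : 0 < κ := by positivity
  set η : ℝ := min (min (ε / 4) (κ / 6)) (1 / 2) with hη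
  have hη0 : 0 < η := by rw [hη]; positivity
  have hη1 : η ≤ ε / 4 := (min_le_left _ _).trans (min_le_left _ _)
  have hη2 : η ≤ κ / 6 := (min_le_left _ _).trans (min_le_right _ _)
  have hη3 : η ≤ 1 / 2 := min_le_right _ _
  obtain ⟨H, hH⟩ : ∃ H : ℝ, H = Real.exp (10 / (ε * y0)) := ⟨_, rfl⟩
  have hH1 : 1 ≤ H := by rw [hH]; exact Real.one_le_exp (by positivity)
  obtain ⟨T, hT2, hT'⟩ := bounds_loc hθ'1 hθσ (by rw [hσ]; linarith) hη0
  set X2 : ℝ := max (2 * T + 2 + 2 * H) (max 5700 (max (Real.exp (Real.log (4 * B ^ 4) / κ))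
    (max (Real.exp (8 / (ε * y0))) (Real.exp (2 * Real.log B))))) with hX2
  refine ⟨H + 3, max X1 X2, by linarith, lt_of_lt_of_le hX1 (le_max_left _ _), fun x hxX hfree y hyy => ?_⟩
  have hx : 0 ≤ x := by
    have := (le_max_left X1 X2).trans hxX
    linarith
  rcases le_or_gt 1 y with hy1 | hy1
  · exact hX1' x y hx hy1 (Or.inl ((le_max_left _ _).trans hxX))
  have hXx : X2 ≤ x := (le_max_right _ _).trans hxX
  have hxT' : 2 * T + 2 + 2 * H ≤ x := (le_max_left _ _).trans hXx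
  have hxT : 2 * T + 2 ≤ x := by linarith
  have hx216 : 5700 ≤ x := ((le_max_left _ _).trans (le_max_right _ _)).trans hXx
  have hxa : Real.exp (Real.log (4 * B ^ 4) / κ) ≤ x :=
    (((le_max_left _ _).trans (le_max_right _ _)).trans (le_max_right _ _)).trans hXx
  have hxb : Real.exp (8 / (ε * y0)) ≤ x :=
    ((((le_max_left _ _).trans (le_max_right _ _)).trans (le_max_right _ _)).trans
      (le_max_right _ _)).trans hXx
  have hxc : Real.exp (2 * Real.log B) ≤ x :=
    ((((le_max_right _ _).trans (le_max_right _ _)).trans (le_max_right _ _)).trans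
      (le_max_right _ _)).trans hXx
  have hx0 : 0 < x := by linarith
  have hlx1 : Real.log (4 * B ^ 4) ≤ κ * Real.log x := by
    have := (Real.le_log_iff_exp_le hx0).2 hxa
    rw [div_le_iff₀ hκ0] at this
    linarith
  have hlx2 : 8 ≤ ε * y0 * Real.log x := by
    have := (Real.le_log_iff_exp_le hx0).2 hxb
    rw [div_le_iff₀ (by positivity)] at this
    linarith
  have hlx3 : 2 * Real.log B ≤ Real.log x := (Real.le_log_iff_exp_le hx0).2 hxc
  set ℓ : ℝ := Real.log x with hℓ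
  have hℓ0 : 0 ≤ ℓ := Real.log_nonneg (by linarith)
  have hz' : ∀ s : ℂ, θ < s.re → |s.im - x| ≤ H + 3 → Zt s ≠ 0 := fun s h1 h2 => hfree.Zt_ne hθ'1 h1 h2
  have hT : ∀ t : ℝ, |t - x| ≤ H + 1 → ∀ u : ℝ, σ ≤ u → u ≤ 2 →
      ‖Zt (u + t * I)‖ ≤ ‖Zt (2 + t * I)‖ * Real.exp (η * Real.log |t|) ∧
      ‖Zt (2 + t * I)‖ ≤ ‖Zt (u + t * I)‖ * Real.exp (η * Real.log |t|) ∧
      ‖logDeriv Zt (u + t * I)‖ ≤ η * Real.log |t| ∧
      ‖deriv (logDeriv Zt) (u + t * I)‖ ≤ η * Real.log |t| := by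
    intro t ht
    have ht' := abs_le.1 ht
    refine hT' t (le_trans (by linarith) (le_abs_self t)) (fun w hw => ?_)
    rw [mem_ball_zero_iff] at hw
    have hw1 := (Complex.abs_re_le_norm w).trans hw.le
    have hw2 := (Complex.abs_im_le_norm w).trans hw.le
    rw [abs_le] at hw2
    apply hz'
    · have h1 : -(2 - θ) < w.re := by
        have := (abs_le.1 (Complex.abs_re_le_norm w)).1
        linarith
      simp
      linarith
    · have e : (2 + t * I + w : ℂ).im - x = (t - x) + w.im := by simp; ring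
      rw [e, abs_le]
      constructor <;> linarith
  -- size of `Lg s`
  have hy' : 0 < y := by linarith
  have hLg : ℓ / 2 ≤ Lg (1 / 2 + y + x * I) := by
    have h1 := Pool.Agent.Helper85.LG.Lg_lower (M := x / 2) (by positivity) hx hy'.le
      (Or.inl (by linarith))
    refine le_trans ?_ h1
    have h2 : x ≤ (x / 2) ^ 2 := by nlinarith
    have h3 := Real.log_le_log hx0 h2
    rw [Real.log_pow] at h3
    push_cast at h3
    linarith
  have hLg0 : 0 ≤ Lg (1 / 2 + y + x * I) := le_trans (by positivity) hLg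
  set Λ : ℝ := Lg (1 / 2 + y + x * I) with hΛ
  set s : ℂ := 1 / 2 + y + x * I with hs
  set u : ℝ := 1 / 2 + y with hu
  have hsu : s = u + x * I := by rw [hs, hu]; push_cast; ring
  have huσ : σ ≤ u := by rw [hσ, hu]; linarith
  have hu2 : u ≤ 2 := by rw [hu]; linarith
  have hmv : ∀ v : ℝ, s + v * I = u + ((x + v : ℝ) : ℂ) * I := by
    intro v; rw [hsu]; push_cast; ring
  have hlog2 : ∀ v : ℝ, |v| ≤ x / 2 → Real.log |x + v| ≤ 2 * ℓ ∧ |x + v| ≤ 3 / 2 * x := by
    intro v hv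
    rw [abs_le] at hv
    have h1 : |x + v| = x + v := abs_of_nonneg (by linarith)
    rw [h1]
    refine ⟨?_, by linarith⟩
    have h2 : x + v ≤ x ^ 2 := by nlinarith
    have h3 := Real.log_le_log (by linarith) h2
    rw [Real.log_pow] at h3
    push_cast at h3
    linarith
  have hbase := hT x (by simp; linarith) u huσ hu2
  rw [abs_of_pos hx0, ← hℓ, ← hsu] at hbase
  -- lower bound for `Zt s`
  have hZ2 := Zt_two hB1 hB x
  rw [abs_of_pos hx0] at hZ2
  have hexpx : Real.exp ℓ = x := Real.exp_log hx0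
  have hZlow : Real.exp ((1 - η) * ℓ) ≤ B * ‖Zt s‖ := by
    have h1 : x ≤ B * (‖Zt s‖ * Real.exp (η * ℓ)) :=
      hZ2.2.trans (mul_le_mul_of_nonneg_left hbase.2.1 (by linarith))
    have h2 : Real.exp ((1 - η) * ℓ) = x * Real.exp (-(η * ℓ)) := by
      nth_rewrite 1 [← hexpx]
      rw [← Real.exp_add]
      congr 1; ring
    rw [h2]
    calc x * Real.exp (-(η * ℓ)) ≤ (B * (‖Zt s‖ * Real.exp (η * ℓ))) * Real.exp (-(η * ℓ)) :=
          mul_le_mul_of_nonneg_right h1 (Real.exp_pos _).le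
      _ = B * ‖Zt s‖ * (Real.exp (η * ℓ) * Real.exp (-(η * ℓ))) := by ring
      _ = B * ‖Zt s‖ := by rw [← Real.exp_add]; simp
  refine ⟨?_, ?_, ?_, ?_⟩
  · intro τ hτ
    rw [abs_le] at hτ
    apply hz'
    · rw [hmv]
      simp
      linarith
    · rw [hmv]
      have e : ((u : ℂ) + ((x + τ : ℝ) : ℂ) * I).im - x = τ := by simp
      rw [e, abs_le]
      constructor <;> linarith
  · refine hbase.2.2.1.trans ?_
    nlinarith
  · intro τ hτ
    have hS := conv_seg u (x - 1 / 2) (x + 1 / 2)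
    have hmem : ∀ v : ℝ, |v| ≤ 1 / 2 →
        s + v * I ∈ {z : ℂ | z.re = u ∧ x - 1 / 2 ≤ z.im ∧ z.im ≤ x + 1 / 2} := by
      intro v hv
      rw [abs_le] at hv
      rw [hmv]
      refine ⟨by simp, ?_, ?_⟩
      · simp; linarith
      · simp; linarith
    have h1 := hS.norm_image_sub_le_of_norm_deriv_le (f := logDeriv Zt) (C := η * (2 * ℓ))
      (x := s) (y := s + τ * I) ?_ ?_ ?_ ?_
    · rw [add_sub_cancel_left, norm_mul, norm_I, mul_one, Complex.norm_real, Real.norm_eq_abs] at h1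
      have h2 : η * (2 * ℓ) ≤ ε * Λ := by nlinarith
      calc ‖logDeriv Zt (s + τ * I) - logDeriv Zt s‖ * y
          ≤ ‖logDeriv Zt (s + τ * I) - logDeriv Zt s‖ * 1 :=
            mul_le_mul_of_nonneg_left hy1.le (norm_nonneg _)
        _ = ‖logDeriv Zt (s + τ * I) - logDeriv Zt s‖ := mul_one _
        _ ≤ η * (2 * ℓ) * |τ| := h1
        _ ≤ ε * Λ * |τ| := mul_le_mul_of_nonneg_right h2 (abs_nonneg _)
    · intro z hz2
      exact ld_diff (by rw [hz2.1]; linarith) (hz' z (by rw [hz2.1]; linarith) (by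
        rw [abs_le]; constructor <;> linarith [hz2.2.1, hz2.2.2]))
    · intro z hz2
      obtain ⟨h1, h2, h3⟩ := hz2
      have ez : z = u + ((x + (z.im - x) : ℝ) : ℂ) * I := by
        apply Complex.ext <;> simp [h1]
      have hv : |z.im - x| ≤ x / 2 := by
        rw [abs_le]; constructor <;> linarith
      obtain ⟨k2, _⟩ := hlog2 _ hv
      have k1 : |x + (z.im - x) - x| ≤ H + 1 := by
        rw [abs_le]; constructor <;> linarith
      have h4 := (hT _ k1 u huσ hu2).2.2.2
      rw [← ez] at h4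
      exact h4.trans (mul_le_mul_of_nonneg_left k2 hη0.le)
    · have := hmem 0 (by simp)
      simpa using this
    · exact hmem τ (by linarith)
  · intro t ht
    have ht2 : 1 / 4 ≤ t ^ 2 := by
      rw [← sq_abs]; nlinarith
    have hneg : s - ((y * t : ℝ) : ℂ) * I = s + ((-(y * t) : ℝ) : ℂ) * I := by push_cast; ring
    rw [hneg]
    set v : ℝ := y * t with hv
    have hv1 : |v| ≤ |t| := by
      rw [hv, abs_mul, abs_of_pos hy']
      nlinarith [abs_nonneg t]
    rcases le_or_gt |v| H with hvx | hvx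
    · -- moderate displacement
      have key : ∀ v : ℝ, |v| ≤ H → ‖Zt (s + v * I)‖ ≤ 2 * B * (x * Real.exp (2 * η * ℓ)) := by
        intro v hv
        obtain ⟨k2, k3⟩ := hlog2 v (by linarith)
        have h1 := (hT (x + v) (by rw [add_sub_cancel_left]; linarith) u huσ hu2).1
        have h2 := (Zt_two hB1 hB (x + v)).1
        rw [hmv]
        have h3 : Real.exp (η * Real.log |x + v|) ≤ Real.exp (2 * η * ℓ) :=
          Real.exp_le_exp.2 (by nlinarith)
        have h4 : ‖Zt (2 + ((x + v : ℝ) : ℂ) * I)‖ ≤ 2 * B * x := by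
          refine h2.trans ?_
          nlinarith
        calc _ ≤ _ := h1
          _ ≤ (2 * B * x) * Real.exp (2 * η * ℓ) :=
              mul_le_mul h4 h3 (Real.exp_pos _).le (by positivity)
          _ = _ := by ring
      have h1 := key v hvx
      have h2 := key (-v) (by rwa [abs_neg])
      have h3 : Real.exp (2 * κ * ℓ) ≤ (1 + t ^ 2) ^ (ε * (y * Λ)) := by
        have e1 : Real.exp (2 * κ * ℓ) = (5 / 4 : ℝ) ^ (ε * y0 * (ℓ / 2)) := by
          rw [Real.rpow_def_of_pos (by norm_num), ← hl, hκ]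
          congr 1; ring
        rw [e1]
        have h4 : (5 / 4 : ℝ) ^ (ε * y0 * (ℓ / 2)) ≤ (5 / 4 : ℝ) ^ (ε * (y * Λ)) := by
          apply Real.rpow_le_rpow_of_exponent_le (by norm_num)
          have h5 : y0 * (ℓ / 2) ≤ y * Λ := mul_le_mul hyy hLg (by positivity) hy'.le
          have h6 := mul_le_mul_of_nonneg_left h5 hε.le
          rw [← mul_assoc] at h6
          exact h6
        refine h4.trans (Real.rpow_le_rpow (by norm_num) (by linarith) (by positivity))
      have h4 : 4 * B ^ 4 ≤ Real.exp (κ * ℓ) := by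
        have := Real.exp_le_exp.2 hlx1
        rwa [Real.exp_log (by positivity)] at this
      have h5 : Real.exp ((1 - η) * ℓ) ^ 2 ≤ (B * ‖Zt s‖) ^ 2 :=
        pow_le_pow_left₀ (Real.exp_pos _).le hZlow 2
      -- assemble
      have h6 : 4 * B ^ 4 * (x * Real.exp (2 * η * ℓ)) ^ 2 ≤
          Real.exp (2 * κ * ℓ) * Real.exp ((1 - η) * ℓ) ^ 2 := by
        have e1 : (x * Real.exp (2 * η * ℓ)) ^ 2 = Real.exp (6 * η * ℓ) * Real.exp ((1 - η) * ℓ) ^ 2 := by
          nth_rewrite 1 [← hexpx]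
          rw [← Real.exp_add, ← Real.exp_nat_mul, ← Real.exp_nat_mul, ← Real.exp_add]
          congr 1; push_cast; ring
        have e2 : Real.exp (2 * κ * ℓ) = Real.exp (κ * ℓ) * Real.exp (κ * ℓ) := by
          rw [← Real.exp_add]; congr 1; ring
        have h7 : Real.exp (6 * η * ℓ) ≤ Real.exp (κ * ℓ) := Real.exp_le_exp.2 (by nlinarith)
        rw [e1, e2, ← mul_assoc]
        apply mul_le_mul_of_nonneg_right _ (by positivity)
        exact mul_le_mul h4 h7 (Real.exp_pos _).le (Real.exp_pos _).le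
      have hB0 : 0 < B ^ 2 := by positivity
      have h8 : B ^ 2 * (‖Zt (s + v * I)‖ * ‖Zt (s + ((-v : ℝ) : ℂ) * I)‖) ≤
          B ^ 2 * ((1 + t ^ 2) ^ (ε * (y * Λ)) * ‖Zt s‖ ^ 2) := by
        calc B ^ 2 * (‖Zt (s + v * I)‖ * ‖Zt (s + ((-v : ℝ) : ℂ) * I)‖)
            ≤ B ^ 2 * ((2 * B * (x * Real.exp (2 * η * ℓ))) * (2 * B * (x * Real.exp (2 * η * ℓ)))) := by
              apply mul_le_mul_of_nonneg_left _ hB0.le
              exact mul_le_mul h1 h2 (norm_nonneg _) (by positivity)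
          _ = 4 * B ^ 4 * (x * Real.exp (2 * η * ℓ)) ^ 2 := by ring
          _ ≤ Real.exp (2 * κ * ℓ) * Real.exp ((1 - η) * ℓ) ^ 2 := h6
          _ ≤ (1 + t ^ 2) ^ (ε * (y * Λ)) * (B * ‖Zt s‖) ^ 2 :=
              mul_le_mul h3 h5 (by positivity) (by positivity)
          _ = _ := by ring
      exact le_of_mul_le_mul_left h8 hB0
    · -- large displacement
      obtain ⟨q, hq⟩ : ∃ q : ℝ, q = |t| := ⟨_, rfl⟩
      have hqH : H ≤ q := by rw [hq]; linarith
      have hq1 : 1 ≤ q := hH1.trans hqH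
      have hvq : |v| ≤ q := by rw [hq]; exact hv1
      have key : ∀ v : ℝ, |v| ≤ q → ‖Zt (s + v * I)‖ ≤ 75 * (x * q) ^ 2 := by
        intro v hv
        have h1 : ‖Zt (s + v * I)‖ ≤ 3 * (‖s + v * I‖ + 1) ^ 2 := by
          apply Pool.Agent.H306R2.Zt_norm_le
          rw [hmv]
          simp
          linarith
        have h2 : ‖s + v * I‖ ≤ 2 + x + |v| := by
          rw [hsu]
          refine norm_add₃_le.trans ?_
          rw [norm_mul, norm_mul, norm_I, mul_one, mul_one, Complex.norm_real, Complex.norm_real,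
            Complex.norm_real, Real.norm_eq_abs, Real.norm_eq_abs, Real.norm_eq_abs, abs_of_pos hx0,
            abs_of_pos (by linarith : 0 < u)]
          linarith
        have h3 : ‖s + v * I‖ + 1 ≤ 5 * (x * q) := by nlinarith
        have h4 : (‖s + v * I‖ + 1) ^ 2 ≤ (5 * (x * q)) ^ 2 := pow_le_pow_left₀ (by positivity) h3 2
        nlinarith
      have h1 := key v hvq
      have h2 := key (-v) (by rwa [abs_neg])
      have hZ1 : 1 ≤ ‖Zt s‖ := by
        have h3 : B ≤ Real.exp ((1 - η) * ℓ) := by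
          rw [← Real.log_le_iff_le_exp (by linarith)]
          nlinarith
        have h4 : B * 1 ≤ B * ‖Zt s‖ := by rw [mul_one]; exact h3.trans hZlow
        exact le_of_mul_le_mul_left h4 (by linarith)
      obtain ⟨E, hE⟩ : ∃ E : ℝ, E = ε * (y * Λ) := ⟨_, rfl⟩
      have hE1 : ε * y0 * ℓ / 2 ≤ E := by
        have h5 : y0 * (ℓ / 2) ≤ y * Λ := mul_le_mul hyy hLg (by positivity) hy'.le
        have h6 := mul_le_mul_of_nonneg_left h5 hε.le
        have h7 : ε * (y0 * (ℓ / 2)) = ε * y0 * ℓ / 2 := by ring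
        rw [hE]; linarith
      have hE4 : 4 ≤ E := by linarith
      have hqE : q ^ E * q ^ E ≤ (1 + t ^ 2) ^ E := by
        rw [← Real.mul_rpow (by linarith) (by linarith)]
        refine Real.rpow_le_rpow (by positivity) ?_ (by linarith)
        have : q * q = t ^ 2 := by rw [hq, ← sq, sq_abs]
        linarith
      have hq4 : q ^ 4 ≤ q ^ E := by
        rw [← Real.rpow_natCast]
        exact Real.rpow_le_rpow_of_exponent_le hq1 (by push_cast; exact hE4)
      have hqx : x ^ 5 ≤ q ^ E := by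
        have a1 : H ^ E ≤ q ^ E := Real.rpow_le_rpow (by linarith) hqH (by linarith)
        have a2 : x ^ 5 ≤ H ^ E := by
          have a3 : x ^ 5 = Real.exp (5 * ℓ) := by
            nth_rewrite 1 [← hexpx]
            rw [← Real.exp_nat_mul]
            norm_num
          rw [a3, hH, ← Real.exp_mul]
          apply Real.exp_le_exp.2
          rw [div_mul_eq_mul_div, le_div_iff₀ (by positivity)]
          nlinarith
        exact a2.trans a1
      have hZ1' : 1 ≤ ‖Zt s‖ ^ 2 := one_le_pow₀ hZ1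
      have hx4 : 75 * 75 * x ^ 4 ≤ x ^ 5 := by
        have : 0 ≤ x ^ 4 := by positivity
        have e : x ^ 5 = x * x ^ 4 := by ring
        rw [e]
        exact mul_le_mul_of_nonneg_right (by linarith) this
      have hE0 : 0 ≤ q ^ E := by positivity
      rw [← hE]
      calc ‖Zt (s + v * I)‖ * ‖Zt (s + ((-v : ℝ) : ℂ) * I)‖ ≤ (75 * (x * q) ^ 2) * (75 * (x * q) ^ 2) :=
            mul_le_mul h1 h2 (norm_nonneg _) (by positivity)
        _ = (75 * 75 * x ^ 4) * q ^ 4 := by ring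
        _ ≤ x ^ 5 * q ^ 4 := mul_le_mul_of_nonneg_right hx4 (by positivity)
        _ ≤ q ^ E * q ^ E := mul_le_mul hqx hq4 (by positivity) hE0
        _ ≤ (1 + t ^ 2) ^ E := hqE
        _ = (1 + t ^ 2) ^ E * 1 := (mul_one _).symm
        _ ≤ (1 + t ^ 2) ^ E * ‖Zt s‖ ^ 2 :=
            mul_le_mul_of_nonneg_left hZ1' (by positivity)

end Pool.Agent.Helper85.LQ
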